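import Pool.Agent.Lib.MP_4a8162_co.FB.Defs

set_option autoImplicit false

namespace Pool.Agent.Lib.MP_4a8162_co.FB

open Finset
open scoped Classical

section setoids

variable {V : Type} [Fintype V]

theorem cs_anti {s t : Setoid V} (h : s ≤ t) : cs t ≤ cs s := by
  have hs : Function.Surjective (Quotient.map' id (fun a b hab => h hab) : Quotient s → Quotient t) := by
    intro q
    induction q using Quotient.inductionOn' with
    | h a => exact ⟨Quotient.mk'' a, rfl⟩
  exact Nat.card_le_card_of_surjective _ hs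

theorem eq_of_cs_le {s t : Setoid V} (h : s ≤ t) (hc : cs s ≤ cs t) : s = t := by
  have hs : Function.Surjective (Quotient.map' id (fun a b hab => h hab) : Quotient s → Quotient t) := by
    intro q
    induction q using Quotient.inductionOn' with
    | h a => exact ⟨Quotient.mk'' a, rfl⟩
  have hb : Function.Bijective
      (Quotient.map' id (fun a b hab => h hab) : Quotient s → Quotient t) := by
    rw [Fintype.bijective_iff_surjective_and_card]
    refine ⟨hs, ?_⟩
    rw [← Nat.card_eq_fintype_card, ← Nat.card_eq_fintype_card]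
    exact le_antisymm hc (cs_anti h)
  apply le_antisymm h
  intro a b hab
  have h1 : (Quotient.map' id (fun a b hab => h hab) : Quotient s → Quotient t) (Quotient.mk'' a) =
      (Quotient.map' id (fun a b hab => h hab) : Quotient s → Quotient t) (Quotient.mk'' b) := by
    simp only [Quotient.map'_mk'']
    exact Quotient.sound' hab
  exact Quotient.exact' (hb.1 h1)

theorem wire_le_iff {R : Set V} {σ s : Setoid V} :
    wire R σ ≤ s ↔ ∀ a ∈ R, ∀ b ∈ R, σ a b → s a b := by
  constructor
  · intro h a ha b hb hab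
    exact h (Or.inr ⟨ha, hb, hab⟩)
  · intro h a b hab
    rcases hab with rfl | ⟨h1, h2, h3⟩
    · exact s.refl a
    · exact h a h1 b h2 h3

theorem jn_le_iff {a b : V} {s : Setoid V} : jn a b ≤ s ↔ s a b := by
  unfold jn
  rw [wire_le_iff]
  constructor
  · intro h
    exact h a (by simp) b (by simp) trivial
  · intro h c hc d hd _
    rcases hc with rfl | hc <;> rcases hd with rfl | hd
    · exact s.refl _
    · cases hd; exact h
    · cases hc; exact s.symm h
    · cases hc; cases hd; exact s.refl _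

theorem jn_rel (a b : V) : jn a b a b := Or.inr ⟨by simp, by simp, trivial⟩

theorem sup_jn_of_rel {a b : V} {s : Setoid V} (h : s a b) : s ⊔ jn a b = s :=
  sup_eq_left.2 (jn_le_iff.2 h)

/-- the join with a wire -/
theorem sup_wire_rel {R : Set V} {σ s : Setoid V} (h : s ≤ σ) {x y : V} :
    (s ⊔ wire R σ) x y ↔ s x y ∨ ∃ a ∈ R, ∃ b ∈ R, s x a ∧ σ a b ∧ s b y := by
  let t : Setoid V :=
    { r := fun x y => s x y ∨ ∃ a ∈ R, ∃ b ∈ R, s x a ∧ σ a b ∧ s b y
      iseqv := by
        refine ⟨fun x => Or.inl (s.refl x), ?_, ?_⟩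
        · rintro x y (h1 | ⟨a, ha, b, hb, h1, h2, h3⟩)
          · exact Or.inl (s.symm h1)
          · exact Or.inr ⟨b, hb, a, ha, s.symm h3, σ.symm h2, s.symm h1⟩
        · rintro x y z (h1 | ⟨a, ha, b, hb, h1, h2, h3⟩) (h4 | ⟨c, hc, d, hd, h4, h5, h6⟩)
          · exact Or.inl (s.trans h1 h4)
          · exact Or.inr ⟨c, hc, d, hd, s.trans h1 h4, h5, h6⟩
          · exact Or.inr ⟨a, ha, b, hb, h1, h2, s.trans h3 h4⟩
          · exact Or.inr ⟨a, ha, d, hd, h1, σ.trans h2 (σ.trans (h h3) (σ.trans (h h4) h5)), h6⟩ }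
  have h1 : s ⊔ wire R σ ≤ t := by
    apply sup_le
    · intro a b hab
      exact Or.inl hab
    · rw [wire_le_iff]
      intro a ha b hb hab
      exact Or.inr ⟨a, ha, b, hb, s.refl a, hab, s.refl b⟩
  constructor
  · intro hxy
    exact h1 hxy
  · rintro (hxy | ⟨a, ha, b, hb, h2, h3, h4⟩)
    · exact (le_sup_left : s ≤ s ⊔ wire R σ) hxy
    · have h5 : (s ⊔ wire R σ) a b := (le_sup_right : wire R σ ≤ s ⊔ wire R σ) (Or.inr ⟨ha, hb, h3⟩)
      exact (s ⊔ wire R σ).trans ((le_sup_left : s ≤ s ⊔ wire R σ) h2)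
        ((s ⊔ wire R σ).trans h5 ((le_sup_left : s ≤ s ⊔ wire R σ) h4))

theorem sup_jn_rel {a b : V} {s : Setoid V} {x y : V} :
    (s ⊔ jn a b) x y ↔ s x y ∨ (s x a ∧ s b y) ∨ (s x b ∧ s a y) := by
  unfold jn
  rw [sup_wire_rel le_top]
  constructor
  · rintro (h | ⟨c, hc, d, hd, h1, -, h2⟩)
    · exact Or.inl h
    · rcases hc with rfl | hc <;> rcases hd with rfl | hd
      · exact Or.inl (s.trans h1 h2)
      · cases hd; exact Or.inr (Or.inl ⟨h1, h2⟩)
      · cases hc; exact Or.inr (Or.inr ⟨h1, h2⟩)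
      · cases hc; cases hd; exact Or.inl (s.trans h1 h2)
  · rintro (h | ⟨h1, h2⟩ | ⟨h1, h2⟩)
    · exact Or.inl h
    · exact Or.inr ⟨a, by simp, b, by simp, h1, trivial, h2⟩
    · exact Or.inr ⟨b, by simp, a, by simp, h1, trivial, h2⟩

/-- joining two different classes reduces the number of classes by one -/
theorem cs_jn {a b : V} {s : Setoid V} (h : ¬ s a b) : cs (s ⊔ jn a b) + 1 = cs s := by
  have hle : s ≤ s ⊔ jn a b := le_sup_left
  let f : {c : Quotient s // c ≠ Quotient.mk'' b} → Quotient (s ⊔ jn a b) :=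
    fun c => (Quotient.map' id (fun x y hxy => hle hxy) : Quotient s → Quotient (s ⊔ jn a b)) c.1
  have hf : Function.Bijective f := by
    constructor
    · rintro ⟨c, hc⟩ ⟨d, hd⟩ hcd
      induction c using Quotient.inductionOn' with
      | h x =>
        induction d using Quotient.inductionOn' with
        | h y =>
          have h1 : (s ⊔ jn a b) x y := by
            simp only [f, Quotient.map'_mk''] at hcd
            exact Quotient.exact' hcd
          have hx : ¬ s x b := fun hx => hc (Quotient.sound' hx)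
          have hy : ¬ s y b := fun hy => hd (Quotient.sound' hy)
          rw [sup_jn_rel] at h1
          apply Subtype.ext
          rcases h1 with h1 | ⟨_, h2⟩ | ⟨h2, _⟩
          · exact Quotient.sound' h1
          · exact absurd (s.symm h2) hy
          · exact absurd h2 hx
    · intro c
      induction c using Quotient.inductionOn' with
      | h x =>
        by_cases hx : s x b
        · refine ⟨⟨Quotient.mk'' a, fun hc => h (Quotient.exact' hc)⟩, ?_⟩
          simp only [f, Quotient.map'_mk'']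
          refine Quotient.sound' ?_
          show (s ⊔ jn a b) a x
          rw [sup_jn_rel]
          exact Or.inr (Or.inl ⟨s.refl a, s.symm hx⟩)
        · exact ⟨⟨Quotient.mk'' x, fun hc => hx (Quotient.exact' hc)⟩, rfl⟩
  have h1 : Nat.card {c : Quotient s // c ≠ Quotient.mk'' b} = cs (s ⊔ jn a b) :=
    Nat.card_eq_of_bijective f hf
  rw [← h1, Nat.card_eq_fintype_card]
  unfold cs
  rw [Nat.card_eq_fintype_card]
  have h2 : Fintype.card {c : Quotient s // c ≠ Quotient.mk'' b} = Fintype.card (Quotient s) - 1 := by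
    have := Fintype.card_subtype_compl (fun c : Quotient s => c = Quotient.mk'' b)
    rw [Fintype.card_subtype_eq] at this
    exact this
  have h3 : 0 < Fintype.card (Quotient s) := Fintype.card_pos_iff.2 ⟨Quotient.mk'' b⟩
  omega

theorem cs_le_jn (a b : V) (s : Setoid V) : cs s ≤ cs (s ⊔ jn a b) + 1 := by
  by_cases h : s a b
  · rw [sup_jn_of_rel h]; omega
  · rw [cs_jn h]

theorem cs_le_gl (l : List (V × V)) (s : Setoid V) : cs s ≤ cs (s ⊔ gl l) + l.length := by
  induction l generalizing s with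
  | nil => simp [gl]
  | cons e l ih =>
    have h1 := cs_le_jn e.1 e.2 s
    have h2 := ih (s ⊔ jn e.1 e.2)
    rw [sup_assoc] at h2
    simp only [gl, List.length_cons]
    omega

theorem forest_cons {e : V × V} {l : List (V × V)} {s : Setoid V} :
    Forest (e :: l) s ↔ ¬ s e.1 e.2 ∧ Forest l (s ⊔ jn e.1 e.2) := by
  unfold Forest
  simp only [gl, List.length_cons, ← sup_assoc]
  constructor
  · intro h
    have h2 := cs_le_gl l (s ⊔ jn e.1 e.2)
    by_cases h3 : s e.1 e.2
    · exfalso
      rw [sup_jn_of_rel h3] at h h2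
      omega
    · have h4 := cs_jn h3
      exact ⟨h3, by omega⟩
  · rintro ⟨h3, h⟩
    have h4 := cs_jn h3
    omega

/-- a forest on the classes of a partition is a forest on the classes of a finer one -/
theorem forest_mono {l : List (V × V)} {s t : Setoid V} (h : s ≤ t) (hl : Forest l t) :
    Forest l s := by
  induction l generalizing s t with
  | nil => simp [Forest, gl]
  | cons e l ih =>
    rw [forest_cons] at hl ⊢
    exact ⟨fun h1 => hl.1 (h h1), ih (sup_le_sup_right h _) hl.2⟩

end setoids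

section graph

variable {V E : Type} [Fintype V] [Fintype E]

theorem gen_le_iff {p : E → V × V} {A : Finset E} {s : Setoid V} :
    gen p A ≤ s ↔ ∀ e ∈ A, s (p e).1 (p e).2 := by
  constructor
  · intro h e he
    exact h (Relation.EqvGen.rel _ _ ⟨e, he, rfl⟩)
  · intro h
    apply Setoid.eqvGen_le
    rintro x y ⟨e, he, hp⟩
    have := h e he
    rw [hp] at this
    exact this

theorem gen_rel {p : E → V × V} {A : Finset E} {e : E} (he : e ∈ A) :
    gen p A (p e).1 (p e).2 := Relation.EqvGen.rel _ _ ⟨e, he, rfl⟩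

theorem gen_mono {p : E → V × V} {A B : Finset E} (h : A ⊆ B) : gen p A ≤ gen p B :=
  gen_le_iff.2 fun _ he => gen_rel (h he)

theorem gen_union (p : E → V × V) (A B : Finset E) : gen p (A ∪ B) = gen p A ⊔ gen p B := by
  apply le_antisymm
  · rw [gen_le_iff]
    intro e he
    rcases Finset.mem_union.1 he with he | he
    · exact (le_sup_left : gen p A ≤ _) (gen_rel he)
    · exact (le_sup_right : gen p B ≤ _) (gen_rel he)
  · exact sup_le (gen_mono subset_union_left) (gen_mono subset_union_right)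

theorem gen_empty (p : E → V × V) : gen p ∅ = ⊥ := by
  apply le_antisymm _ bot_le
  rw [gen_le_iff]
  simp

theorem gen_insert (p : E → V × V) (A : Finset E) (e : E) :
    gen p (insert e A) = gen p A ⊔ jn (p e).1 (p e).2 := by
  apply le_antisymm
  · rw [gen_le_iff]
    intro f hf
    rcases Finset.mem_insert.1 hf with rfl | hf
    · exact (le_sup_right : jn (p f).1 (p f).2 ≤ _) (jn_rel _ _)
    · exact (le_sup_left : gen p A ≤ _) (gen_rel hf)
  · exact sup_le (gen_mono (subset_insert _ _)) (jn_le_iff.2 (gen_rel (mem_insert_self _ _)))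

theorem mem_Din {p : E → V × V} {D : Finset E} {ρ : Setoid V} {e : E} :
    e ∈ Din p D ρ ↔ e ∈ D ∧ ρ (p e).1 (p e).2 := by simp [Din]

theorem mem_cutE {p : E → V × V} {D : Finset E} {ρ : Setoid V} {e : E} :
    e ∈ cutE p D ρ ↔ e ∈ D ∧ ¬ ρ (p e).1 (p e).2 := by simp [cutE]

theorem mem_FL {p : E → V × V} {D : Finset E} {θ : Setoid V} {v h : V} {ρ : Setoid V} :
    ρ ∈ FL p D θ v h ↔ Fl p D θ ρ ∧ ¬ ρ v h := by simp [FL]

theorem mem_bd {p : E → V × V} {P : Finset V} {e : E} :
    e ∈ bd p P ↔ ¬ ((p e).1 ∈ P ↔ (p e).2 ∈ P) := by simp [bd]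

theorem Fl.le {p : E → V × V} {D : Finset E} {θ ρ : Setoid V} (h : Fl p D θ ρ) : θ ≤ ρ := by
  unfold Fl at h
  rw [h]
  exact le_sup_right

theorem Fl.le_full {p : E → V × V} {D : Finset E} {θ ρ : Setoid V} (h : Fl p D θ ρ) :
    ρ ≤ gen p D ⊔ θ := by
  unfold Fl at h
  rw [h]
  exact sup_le_sup_right (gen_mono (filter_subset _ _)) _

/-- the criterion: it is enough that `ρ` is generated by some edges of `D` and by `θ` -/
theorem Fl.of_eq {p : E → V × V} {D A : Finset E} {θ ρ : Setoid V} (hA : A ⊆ D)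
    (h : ρ = gen p A ⊔ θ) : Fl p D θ ρ := by
  unfold Fl
  apply le_antisymm
  · conv_lhs => rw [h]
    refine sup_le_sup_right (gen_mono ?_) _
    intro e he
    rw [mem_Din]
    refine ⟨hA he, ?_⟩
    rw [h]
    exact (le_sup_left : gen p A ≤ _) (gen_rel he)
  · refine sup_le ?_ ?_
    · rw [gen_le_iff]
      intro e he
      exact (mem_Din.1 he).2
    · rw [h]
      exact le_sup_right

theorem Fl.sup {p : E → V × V} {D : Finset E} {θ ρ ρ' : Setoid V} (h : Fl p D θ ρ)
    (h' : Fl p D θ ρ') : Fl p D θ (ρ ⊔ ρ') := by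
  refine Fl.of_eq (A := Din p D ρ ∪ Din p D ρ')
    (union_subset (filter_subset _ _) (filter_subset _ _)) ?_
  rw [gen_union]
  have h1 : ρ = gen p (Din p D ρ) ⊔ θ := h
  have h2 : ρ' = gen p (Din p D ρ') ⊔ θ := h'
  conv_lhs => rw [h1, h2]
  rw [sup_sup_sup_comm, sup_idem]

theorem Fl.sup_jn {p : E → V × V} {D : Finset E} {θ ρ : Setoid V} (h : Fl p D θ ρ) {e : E}
    (he : e ∈ D) : Fl p D θ (ρ ⊔ jn (p e).1 (p e).2) := by
  refine Fl.of_eq (A := insert e (Din p D ρ)) (insert_subset he (filter_subset _ _)) ?_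
  rw [gen_insert]
  have h1 : ρ = gen p (Din p D ρ) ⊔ θ := h
  conv_lhs => rw [h1]
  rw [sup_right_comm]

/-- the partition of a set of closed edges is a flat -/
theorem Fl.pi {p : E → V × V} {D B : Finset E} {θ : Setoid V} : Fl p D θ (gen p (D \ B) ⊔ θ) :=
  Fl.of_eq sdiff_subset rfl

/-- the closed set contains the cut iff the flat is coarser -/
theorem pi_le_iff {p : E → V × V} {D B : Finset E} {θ ρ : Setoid V} (h : Fl p D θ ρ) :
    gen p (D \ B) ⊔ θ ≤ ρ ↔ cutE p D ρ ⊆ B := by
  rw [sup_le_iff, gen_le_iff]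
  constructor
  · rintro ⟨h1, -⟩ e he
    rw [mem_cutE] at he
    by_contra hB
    exact he.2 (h1 e (mem_sdiff.2 ⟨he.1, hB⟩))
  · intro h1
    refine ⟨fun e he => ?_, h.le⟩
    by_contra hc
    exact (mem_sdiff.1 he).2 (h1 (mem_cutE.2 ⟨(mem_sdiff.1 he).1, hc⟩))

theorem sdiff_cutE_union {p : E → V × V} {D B : Finset E} {ρ : Setoid V} :
    D \ (cutE p D ρ ∪ B) = Din p D ρ \ B := by
  ext e
  simp only [mem_sdiff, mem_union, mem_cutE, mem_Din]
  tauto

theorem Din_union_cutE {p : E → V × V} {D : Finset E} {ρ : Setoid V} :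
    Din p D ρ ∪ cutE p D ρ = D := by
  ext e
  simp only [mem_union, mem_cutE, mem_Din]
  tauto

theorem disjoint_Din_cutE {p : E → V × V} {D : Finset E} {ρ : Setoid V} :
    Disjoint (Din p D ρ) (cutE p D ρ) := by
  rw [Finset.disjoint_left]
  intro e he he'
  exact (mem_cutE.1 he').2 (mem_Din.1 he).2

end graph

end Pool.Agent.Lib.MP_4a8162_co.FB
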