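import Mathlib

set_option autoImplicit false

/-!
# MP_4a8162_co, REAL FLOW ROOTS ARE BOUNDED: definitions

A finite multigraph (loops and parallel edges allowed) is a map `p : E → V × V`. Partitions of the
vertex set are `Setoid V`; `s ≤ t` means that `s` is finer than `t`.
-/

namespace Pool.Agent.Lib.MP_4a8162_co.FB

open Finset
open scoped Classical

/-! ## Partitions -/

section setoids

variable {V : Type} [Fintype V]

instance finite_setoid : Finite (Setoid V) :=
  Finite.of_injective (fun s : Setoid V => (fun a b => (s a b : Prop) : V → V → Prop)) (by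
    intro s t h
    ext a b
    exact iff_of_eq (congrFun (congrFun h a) b))

noncomputable instance fintype_setoid : Fintype (Setoid V) := Fintype.ofFinite _

/-- the number of classes -/
noncomputable def cs (s : Setoid V) : ℕ := Nat.card (Quotient s)

/-- the elements of `R` which are related by `σ` are joined, nothing else -/
def wire (R : Set V) (σ : Setoid V) : Setoid V where
  r a b := a = b ∨ (a ∈ R ∧ b ∈ R ∧ σ a b)
  iseqv := by
    refine ⟨fun a => Or.inl rfl, ?_, ?_⟩
    · rintro a b (h | ⟨h1, h2, h3⟩)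
      · exact Or.inl h.symm
      · exact Or.inr ⟨h2, h1, σ.symm h3⟩
    · rintro a b c (rfl | ⟨h1, h2, h3⟩) (rfl | ⟨h4, h5, h6⟩)
      · exact Or.inl rfl
      · exact Or.inr ⟨h4, h5, h6⟩
      · exact Or.inr ⟨h1, h2, h3⟩
      · exact Or.inr ⟨h1, h5, σ.trans h3 h6⟩

/-- `a` and `b` are joined, nothing else -/
def jn (a b : V) : Setoid V := wire {a, b} ⊤

/-- the partition generated by a list of pairs -/
def gl : List (V × V) → Setoid V
  | [] => ⊥
  | e :: l => jn e.1 e.2 ⊔ gl l

/-- flow edges: `fe l g π` is the alternating sum of the values of `g` at `π` joined along the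
sublists of `l` -/
def fe : List (V × V) → (Setoid V → ℝ) → Setoid V → ℝ
  | [], g => g
  | e :: l, g => fun π => fe l g (π ⊔ jn e.1 e.2) - fe l g π

/-- `l` is a forest on the classes of `s` -/
def Forest (l : List (V × V)) (s : Setoid V) : Prop := cs (s ⊔ gl l) + l.length = cs s

/-- complete monotonicity -/
def CM (f : Setoid V → ℝ) : Prop := ∀ (s : Setoid V) (l : List (V × V)), Forest l s → 0 ≤ fe l f s

/-- all elements of `S` are related by `ρ` -/
def Sat (ρ : Setoid V) (S : Set V) : Prop := ∀ a ∈ S, ∀ b ∈ S, ρ a b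

end setoids

/-! ## Multigraphs -/

section graph

variable {V E : Type} [Fintype V] [Fintype E]

/-- the edges between `P` and its complement -/
noncomputable def bd (p : E → V × V) (P : Finset V) : Finset E :=
  univ.filter fun e => ¬ ((p e).1 ∈ P ↔ (p e).2 ∈ P)

/-- some edge joins `A` and `B` -/
def Jo (p : E → V × V) (A B : Finset V) : Prop :=
  ∃ e, ((p e).1 ∈ A ∧ (p e).2 ∈ B) ∨ ((p e).1 ∈ B ∧ (p e).2 ∈ A)

/-- the partition generated by the edges of `A` -/
def gen (p : E → V × V) (A : Finset E) : Setoid V :=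
  Relation.EqvGen.setoid fun u v => ∃ e ∈ A, p e = (u, v)

/-- the edges of `D` inside the classes of `ρ` -/
noncomputable def Din (p : E → V × V) (D : Finset E) (ρ : Setoid V) : Finset E :=
  D.filter fun e => ρ (p e).1 (p e).2

/-- the edges of `D` between the classes of `ρ` -/
noncomputable def cutE (p : E → V × V) (D : Finset E) (ρ : Setoid V) : Finset E :=
  D.filter fun e => ¬ ρ (p e).1 (p e).2

/-- the state sum: edges available `D`, wires `θ` -/
noncomputable def q (p : E → V × V) (x : ℝ) (D : Finset E) (θ : Setoid V) (g : Setoid V → ℝ) : ℝ :=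
  ∑ B ∈ D.powerset, (-(1 / x)) ^ B.card * x ^ cs (gen p (D \ B) ⊔ θ) * g (gen p (D \ B) ⊔ θ)

/-- the number `log (n + 8) ^ 2 / 6` -/
noncomputable def psi (n : ℕ) : ℝ := Real.log (n + 8) ^ 2 / 6

/-- the isoperimetric hypothesis -/
def Iso (p : E → V × V) : Prop :=
  (∀ P : Finset V, P.Nonempty → P ≠ univ → 2 ≤ (bd p P).card) ∧
  (∀ P : Finset V, P.Nonempty → 2 * P.card ≤ Fintype.card V → psi P.card ≤ (bd p P).card) ∧
  (∀ P : Finset V, P.Nonempty → P ≠ univ → (bd p P).card = 2 → P.card ≤ 2 ∨ Pᶜ.card ≤ 2)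

/-- a configuration: `U` the wired vertices, `θ` the wires (its classes in `U` are the hubs), `D` the
available edges; every component of the complement of `U` is adjacent to exactly one hub -/
structure Cfg (p : E → V × V) (D : Finset E) (U : Finset V) (θ : Setoid V) : Prop where
  wired : ∀ a b, θ a b → a = b ∨ (a ∈ U ∧ b ∈ U)
  edges : ∀ e, e ∈ D ↔ ((p e).1 ∈ U → (p e).2 ∈ U → θ (p e).1 (p e).2)
  hub : ∀ a ∈ U, ∀ b ∈ U, (gen p D ⊔ θ) a b → θ a b
  att : ∀ v, ∃ u ∈ U, (gen p D ⊔ θ) v u

/-- flats: partitions into parts which are connected by edges of `D` and wires -/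
def Fl (p : E → V × V) (D : Finset E) (θ ρ : Setoid V) : Prop := ρ = gen p (Din p D ρ) ⊔ θ

/-- the flats in which `v` and `h` lie in different parts -/
noncomputable def FL (p : E → V × V) (D : Finset E) (θ : Setoid V) (v h : V) : Finset (Setoid V) :=
  univ.filter fun ρ => Fl p D θ ρ ∧ ¬ ρ v h

/-- the boundary vertices of the parts of `ρ`, with the marked vertices `v` and `h` -/
def Rv (p : E → V × V) (D : Finset E) (v h : V) (ρ : Setoid V) : Set V :=
  {a | a = v ∨ a = h ∨ ∃ e ∈ cutE p D ρ, a = (p e).1 ∨ a = (p e).2}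

/-- the wired partition -/
def wi (p : E → V × V) (D : Finset E) (v h : V) (π ρ σ : Setoid V) : Setoid V :=
  π ⊔ wire (Rv p D v h ρ) σ

/-- the coefficient functionals: `A π g` only depends on the values of `g` between `π` and the
partition into components, and the values of `g` at the flats are sums of the functionals -/
def IsA (p : E → V × V) (x : ℝ) (D : Finset E) (θ : Setoid V) (v h : V)
    (A : Setoid V → (Setoid V → ℝ) →ₗ[ℝ] ℝ) : Prop :=
  (∀ π ∈ FL p D θ v h, ∀ g g' : Setoid V → ℝ,
    (∀ σ, π ≤ σ → σ ≤ gen p D ⊔ θ → g σ = g' σ) → A π g = A π g') ∧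
  ∀ π ∈ FL p D θ v h, ∀ g : Setoid V → ℝ, g π =
    ∑ ρ ∈ (FL p D θ v h).filter (fun ρ => π ≤ ρ),
      (1 / x) ^ (cs π - cs (wi p D v h π ρ ρ)) * A ρ (fun σ => g (wi p D v h π ρ σ))

/-- the polynomial of the graph with edges `D` and wires `θ`: `x ^ cs θ` times its flow polynomial -/
noncomputable def PolD (p : E → V × V) (x : ℝ) (D : Finset E) (θ : Setoid V) : ℝ :=
  ∑ B ∈ D.powerset, (-1) ^ (D \ B).card * x ^ B.card * x ^ cs (gen p B ⊔ θ)

/-- the nullity of the graph with edges `D` and wires `θ` is less than `r` -/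
def NlLt (p : E → V × V) (D : Finset E) (θ : Setoid V) (r : ℕ) : Prop :=
  D.card + cs (gen p D ⊔ θ) < r + cs θ

/-- no edge of `D` is a bridge -/
def Brl (p : E → V × V) (D : Finset E) (θ : Setoid V) : Prop :=
  ∀ e ∈ D, (gen p (D.erase e) ⊔ θ) (p e).1 (p e).2

end graph

end Pool.Agent.Lib.MP_4a8162_co.FB
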