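import Pool.Agent.Lib.MP_4a8162_co.FB.StmF
import Pool.Agent.Lib.MP_4a8162_co.FX.Bridge

set_option autoImplicit false

/-!
# MP_4a8162_co, REAL FLOW ROOTS ARE BOUNDED: graphs and matroids
-/

namespace Pool.Agent.Lib.MP_4a8162_co.FB

open Finset
open scoped Classical

section graph

variable {V E : Type} [Fintype V] [Fintype E]

/-- the nullity is not negative -/
theorem cs_add_card (p : E → V × V) (B : Finset E) (θ : Setoid V) :
    cs θ ≤ cs (gen p B ⊔ θ) + B.card := by
  induction B using Finset.induction_on with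
  | empty => simp [gen_empty]
  | insert e B he ih =>
    have h1 := cs_le_jn (p e).1 (p e).2 (gen p B ⊔ θ)
    have h2 : gen p (insert e B) ⊔ θ = gen p B ⊔ θ ⊔ jn (p e).1 (p e).2 := by
      rw [gen_insert, sup_assoc, sup_assoc, sup_comm θ]
    rw [h2, card_insert_of_notMem he]
    omega

theorem cs_bot : cs (⊥ : Setoid V) = Fintype.card V := by
  unfold cs
  rw [← Nat.card_eq_fintype_card]
  refine Nat.card_congr ?_
  refine (Equiv.ofBijective (fun v : V => (Quotient.mk (⊥ : Setoid V) v)) ⟨?_, ?_⟩).symm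
  · intro a b h
    exact Quotient.exact h
  · intro c
    induction c using Quotient.inductionOn with
    | h a => exact ⟨a, rfl⟩

theorem polD_eq_sum (p : E → V × V) (x : ℝ) :
    PolD p x univ ⊥ = ∑ A : Finset E,
      (-1) ^ (Fintype.card E - A.card) * x ^ A.card * x ^ cs (gen p A) := by
  unfold PolD
  rw [powerset_univ]
  refine sum_congr rfl fun A _ => ?_
  rw [sup_bot_eq, ← compl_eq_univ_sdiff, card_compl]

/-- the sum over all sets of edges, with the exponents of the flow polynomial -/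
theorem polD_eq (p : E → V × V) (x : ℝ) :
    PolD p x univ ⊥ = x ^ Fintype.card V * ∑ A : Finset E,
      (-1) ^ (Fintype.card E - A.card) * x ^ (A.card + cs (gen p A) - Fintype.card V) := by
  rw [polD_eq_sum, mul_sum]
  refine sum_congr rfl fun A _ => ?_
  have h1 := cs_add_card p A ⊥
  rw [sup_bot_eq, cs_bot] at h1
  have h2 : A.card + cs (gen p A) = Fintype.card V + (A.card + cs (gen p A) - Fintype.card V) := by
    omega
  rw [mul_assoc, ← pow_add]
  conv_lhs => rw [h2]
  rw [pow_add]
  ring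

theorem quot_cs (p : E → V × V) (A : Finset E) :
    Nat.card (Quot fun u v => ∃ e ∈ A, p e = (u, v)) = cs (gen p A) := by
  unfold cs
  refine Nat.card_congr ?_
  refine Equiv.ofBijective (Quot.lift (fun v => Quotient.mk (gen p A) v) ?_) ⟨?_, ?_⟩
  · intro a b h
    exact Quotient.sound (Relation.EqvGen.rel _ _ h)
  · intro a b
    induction a using Quot.ind with | _ a => ?_
    induction b using Quot.ind with | _ b => ?_
    intro h
    exact Quot.eqvGen_sound (Quotient.exact h)
  · intro c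
    induction c using Quotient.inductionOn with
    | h a => exact ⟨Quot.mk _ a, rfl⟩

/-- an edge whose removal does not change the number of components is not a bridge -/
theorem brl_of_cs (p : E → V × V)
    (h : ∀ e, cs (gen p (univ.erase e)) = cs (gen p univ)) : Brl p univ ⊥ := by
  intro e he
  rw [sup_bot_eq]
  have h1 : gen p (univ.erase e) = gen p univ :=
    eq_of_cs_le (gen_mono (erase_subset _ _)) (h e).le
  rw [h1]
  exact gen_rel (mem_univ e)

/-- positivity of the flow polynomials -/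
theorem flow_pos (h : S_MNF) : ∃ T : ℝ, 1 ≤ T ∧ ∀ x : ℝ, T ≤ x → ∀ (V E : Type) [Fintype V]
    [Fintype E] (p : E → V × V), Brl p univ ⊥ → 0 < PolD p x univ ⊥ := by
  obtain ⟨T, hT⟩ := h
  refine ⟨max T 1, le_max_right _ _, ?_⟩
  intro x hx V E _ _ p hp
  refine (hT x ((le_max_left _ _).trans hx)
    ((univ : Finset E).card + cs (gen p univ ⊔ ⊥) + 1) V E p univ ⊥ ?_).2 hp
  unfold NlLt
  omega

end graph

/-- the number of components -/
theorem cc_card {V E : Type} [Fintype V] [Fintype E] (p : E → V × V) (A : Finset E) :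
    (FX.cc p A).card = cs (gen p A) := by
  rw [← quot_cs, ← FX.cc_quot]
  unfold Pool.Agent.Lib.MP_4a8162_co.cc
  have : Pool.Agent.Lib.MP_4a8162_co.edgeRel p (A : Set E) =
      fun u v => ∃ e ∈ A, p e = (u, v) := by
    funext u v
    apply propext
    constructor
    · rintro ⟨e, he, hp⟩
      exact ⟨e, Finset.mem_coe.1 he, hp⟩
    · rintro ⟨e, he, hp⟩
      exact ⟨e, Finset.mem_coe.2 he, hp⟩
  rw [this]

/-- the bond matroid of a graph with a bridge has a loop -/
theorem brl_of_loopless {m : ℕ} (M : Matroid ℕ) (hfin : M.Finite) (ends : ℕ → Fin m × Fin m)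
    (hG : ∀ I : Set ℕ, M.dual.Indep I ↔ (I ⊆ M.E ∧ LinearIndependent ℚ
      (fun x : I => (Pi.single (ends x).1 (1 : ℚ) - Pi.single (ends x).2 (1 : ℚ) : Fin m → ℚ))))
    (hl : ∀ e ∈ M.E, M.Indep {e}) (E : Finset ℕ) (hE : (E : Set ℕ) = M.E) :
    Brl (fun i : {i // i ∈ E} => ends i) univ ⊥ := by
  intro e _
  rw [sup_bot_eq]
  by_contra hne
  obtain ⟨p, hp⟩ : ∃ p : {i // i ∈ E} → Fin m × Fin m, p = fun i : {i // i ∈ E} => ends i := ⟨_, rfl⟩
  have hpe : ∀ i, p i = ends i := fun i => by rw [hp]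
  rw [← hp] at hne
  generalize hs : gen p _ = s at hne
  have heM : (e : ℕ) ∈ M.E := by rw [← hE]; exact e.2
  obtain ⟨B, hB, hBe⟩ : ∃ B, M.dual.IsBase B ∧ Disjoint ({(e : ℕ)} : Set ℕ) B := by
    have h1 := hl e heM
    rw [← M.dual_dual, Matroid.dual_indep_iff_exists
      (by rw [Matroid.dual_ground]; exact Set.singleton_subset_iff.2 heM)] at h1
    obtain ⟨B, hB, hd⟩ := h1
    exact ⟨B, hB, hd⟩
  rw [Set.disjoint_singleton_left] at hBe
  have hBE : B ⊆ M.E := by
    have := hB.subset_ground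
    rwa [Matroid.dual_ground] at this
  -- the set `insert e B` is independent
  have hBi : LinearIndepOn ℚ (fun i : ℕ =>
      (Pi.single (ends i).1 (1 : ℚ) - Pi.single (ends i).2 (1 : ℚ) : Fin m → ℚ)) B :=
    ((hG B).1 hB.indep).2
  have hins : LinearIndepOn ℚ (fun i : ℕ =>
      (Pi.single (ends i).1 (1 : ℚ) - Pi.single (ends i).2 (1 : ℚ) : Fin m → ℚ))
      (insert (e : ℕ) B) := by
    refine LinearIndepOn.insert hBi ?_
    intro hmem
    -- a functional which vanishes on `B` but not on `e`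
    let φ : (Fin m → ℚ) →ₗ[ℚ] ℚ :=
      ∑ w ∈ univ.filter (fun w => s (p e).1 w), LinearMap.proj w
    have hφ : ∀ w : Fin m → ℚ, φ w = ∑ u ∈ univ.filter (fun w => s (p e).1 w), w u := by
      intro w
      simp [φ]
    have hval : ∀ a b : Fin m, φ (Pi.single a (1 : ℚ) - Pi.single b (1 : ℚ)) =
        (if s (p e).1 a then 1 else 0) - (if s (p e).1 b then 1 else 0) := by
      intro a b
      rw [hφ]
      simp only [Pi.sub_apply, Finset.sum_sub_distrib, Pi.single_apply, Finset.sum_ite_eq',
        Finset.mem_filter, Finset.mem_univ, true_and]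
    have h0 : φ (Pi.single (ends (e : ℕ)).1 (1 : ℚ) - Pi.single (ends (e : ℕ)).2 (1 : ℚ)) = 0 := by
      have hle : Submodule.span ℚ ((fun i : ℕ =>
          (Pi.single (ends i).1 (1 : ℚ) - Pi.single (ends i).2 (1 : ℚ) : Fin m → ℚ)) '' B) ≤
          LinearMap.ker φ := by
        rw [Submodule.span_le]
        rintro _ ⟨i, hi, rfl⟩
        rw [SetLike.mem_coe, LinearMap.mem_ker, hval]
        have hiE : i ∈ E := by
          have := hBE hi
          rw [← hE] at this
          exact_mod_cast this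
        have h1 : s (ends i).1 (ends i).2 := by
          have h2 : s (p ⟨i, hiE⟩).1 (p ⟨i, hiE⟩).2 := by
            rw [← hs]
            apply gen_rel
            simp only [Finset.mem_erase, mem_univ, and_true]
            intro h
            apply hBe
            rw [← h]
            exact hi
          rw [hpe] at h2
          exact h2
        have h2 : s (p e).1 (ends i).1 ↔ s (p e).1 (ends i).2 :=
          ⟨fun h => s.trans h h1, fun h => s.trans h (s.symm h1)⟩
        simp only [h2, sub_self]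
      exact hle hmem
    rw [hval] at h0
    have h1 : s (p e).1 (ends (e : ℕ)).1 := by rw [hpe]
    have h2 : ¬ s (p e).1 (ends (e : ℕ)).2 := by
      have h3 := hne
      rw [hpe] at h3 ⊢
      exact h3
    rw [if_pos h1, if_neg h2] at h0
    norm_num at h0
  have h3 : M.dual.Indep (insert (e : ℕ) B) :=
    (hG _).2 ⟨Set.insert_subset heM hBE, hins⟩
  have h4 := hB.eq_of_subset_indep h3 (Set.subset_insert _ _)
  apply hBe
  rw [h4]
  exact Set.mem_insert _ _

/-- positivity of the characteristic polynomials of the bond matroids -/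
theorem char_pos (h : S_MNF) : ∃ T : ℝ, 1 ≤ T ∧ ∀ x : ℝ, T ≤ x → ∀ (m : ℕ) (M : Matroid ℕ),
    M.Finite → ∀ ends : ℕ → Fin m × Fin m,
    (∀ I : Set ℕ, M.dual.Indep I ↔ (I ⊆ M.E ∧ LinearIndependent ℚ
      (fun x : I => (Pi.single (ends x).1 (1 : ℚ) - Pi.single (ends x).2 (1 : ℚ) : Fin m → ℚ)))) →
    (∀ e ∈ M.E, M.Indep {e}) → ∀ E : Finset ℕ, (E : Set ℕ) = M.E →
    0 < ∑ X ∈ E.powerset, (-1 : ℝ) ^ X.card * x ^ (rks M M.E - rks M (X : Set ℕ)) := by
  obtain ⟨T, hT1, hT⟩ := flow_pos h
  refine ⟨T, hT1, ?_⟩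
  intro x hx m M hfin ends hG hl E hE
  have h1 := hT x hx (Fin m) {i // i ∈ E} (fun i => ends i)
    (brl_of_loopless M hfin ends hG hl E hE)
  have h2 := FX.char_eq M hfin ends hG E hE (x : ℂ)
  have h3 : x ^ m * ∑ X ∈ E.powerset, (-1 : ℝ) ^ X.card *
      x ^ (rks M M.E - rks M (X : Set ℕ)) =
      PolD (fun i : {i // i ∈ E} => ends i) x univ ⊥ := by
    rw [polD_eq_sum]
    apply Complex.ofReal_injective
    push_cast
    rw [h2]
    refine sum_congr rfl fun A _ => ?_
    rw [cc_card, Fintype.card_coe]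
    ring
  rw [← h3] at h1
  have h4 : (0 : ℝ) < x ^ m := pow_pos (by linarith) m
  exact (pos_iff_pos_of_mul_pos h1).1 h4

end Pool.Agent.Lib.MP_4a8162_co.FB
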