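import Pool.Agent.Lib.MP_4a8162_co.FB.Fin
import Pool.Agent.Lib.MP_4a8162_co.FB.P.AEX
import Pool.Agent.Lib.MP_4a8162_co.FB.P.INT
import Pool.Agent.Lib.MP_4a8162_co.FB.P.TID
import Pool.Agent.Lib.MP_4a8162_co.FB.P.TST
import Pool.Agent.Lib.MP_4a8162_co.FB.P.TPM
import Pool.Agent.Lib.MP_4a8162_co.FB.P.UCC
import Pool.Agent.Lib.MP_4a8162_co.FB.P.TEQ
import Pool.Agent.Lib.MP_4a8162_co.FB.P.EXC
import Pool.Agent.Lib.MP_4a8162_co.FB.P.FLN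
import Pool.Agent.Lib.MP_4a8162_co.FB.P.BT
import Pool.Agent.Lib.MP_4a8162_co.FB.P.BND
import Pool.Agent.Lib.MP_4a8162_co.FB.P.VAN
import Pool.Agent.Lib.MP_4a8162_co.FB.P.STR
import Pool.Agent.Lib.MP_4a8162_co.FB.P.CLE
import Pool.Agent.Lib.MP_4a8162_co.FB.P.PHI
import Pool.Agent.Lib.MP_4a8162_co.FB.P.NZZ
import Pool.Agent.Lib.MP_4a8162_co.FB.P.PXX
import Pool.Agent.Lib.MP_4a8162_co.FB.P.PSS
import Pool.Agent.Lib.MP_4a8162_co.FB.P.CLU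
import Pool.Agent.Lib.MP_4a8162_co.FB.P.EXN
import Pool.Agent.Lib.MP_4a8162_co.FB.P.MAP
import Pool.Agent.Lib.MP_4a8162_co.FB.P.INJ
import Pool.Agent.Lib.MP_4a8162_co.FB.P.CNT
import Pool.Agent.Lib.MP_4a8162_co.FB.P.DEL
import Pool.Agent.Lib.MP_4a8162_co.FB.P.EXP
import Pool.Agent.Lib.MP_4a8162_co.FB.P.GJN
import Pool.Agent.Lib.MP_4a8162_co.FB.P.RCH
import Pool.Agent.Lib.MP_4a8162_co.FB.P.CFO
import Pool.Agent.Lib.MP_4a8162_co.FB.P.CFR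
import Pool.Agent.Lib.MP_4a8162_co.FB.P.GQQ
import Pool.Agent.Lib.MP_4a8162_co.FB.P.QUU
import Pool.Agent.Lib.MP_4a8162_co.FB.P.CMP
import Pool.Agent.Lib.MP_4a8162_co.FB.P.GRW
import Pool.Agent.Lib.MP_4a8162_co.FB.P.STP
import Pool.Agent.Lib.MP_4a8162_co.FB.P.THS
import Pool.Agent.Lib.MP_4a8162_co.FB.P.PDI
import Pool.Agent.Lib.MP_4a8162_co.FB.P.BRZ
import Pool.Agent.Lib.MP_4a8162_co.FB.P.QUO
import Pool.Agent.Lib.MP_4a8162_co.FB.P.CIR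
import Pool.Agent.Lib.MP_4a8162_co.FB.P.RED
import Pool.Agent.Lib.MP_4a8162_co.FB.P.DGS
import Pool.Agent.Lib.MP_4a8162_co.FB.P.SBM
import Pool.Agent.Lib.MP_4a8162_co.FB.P.TRE
import Pool.Agent.Lib.MP_4a8162_co.FB.P.GAN
import Pool.Agent.Lib.MP_4a8162_co.FB.P.ISO
import Pool.Agent.Lib.MP_4a8162_co.FB.P.CONx
import Pool.Agent.Lib.MP_4a8162_co.FB.P.FAD
import Pool.Agent.Lib.MP_4a8162_co.FB.P.CMS
import Pool.Agent.Lib.MP_4a8162_co.FB.P.MNF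

set_option autoImplicit false

/-!
# MP_4a8162_co, REAL FLOW ROOTS ARE BOUNDED: assembly
-/

namespace Pool.Agent.Lib.MP_4a8162_co.FB

theorem m_tid : S_TID := p_TID p_INT
theorem m_bt : S_BT := p_BT m_tid p_TST p_TPM p_UCC p_TEQ p_EXC p_FLN
theorem m_bnd : S_BND := p_BND m_bt
theorem m_str : S_STR := p_STR p_VAN
theorem m_pxx : S_PXX := p_PXX p_CLE p_PHI p_NZZ
theorem m_exn : S_EXN := p_EXN p_CLU
theorem m_map : S_MAP := p_MAP p_CLU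
theorem m_cnt : S_CNT := p_CNT m_str m_pxx p_PSS p_CLU m_map p_INJ
theorem m_gqq : S_GQQ := p_GQQ p_RCH
theorem m_cmp : S_CMP := p_CMP p_RCH p_CFR m_gqq
theorem m_grw : S_GRW := p_GRW p_CFO m_gqq
theorem m_stp : S_STP := p_STP p_AEX m_str m_bnd m_exn p_DEL p_EXP p_GJN p_CFO m_cmp m_grw
theorem m_ths : S_THS := p_THS m_cnt m_stp p_CFO p_QUU
theorem m_brz : S_BRZ := p_BRZ p_PDI
theorem m_cir : S_CIR := p_CIR p_PDI
theorem m_red : S_RED := p_RED m_cir p_PDI m_brz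
theorem m_tre : S_TRE := p_TRE p_DGS
theorem m_iso : S_ISO := p_ISO m_tre p_GAN p_SBM p_DGS
theorem m_fad : S_FAD := p_FAD p_PDI
theorem m_cms : S_CMS := p_CMS m_fad
theorem mnf : S_MNF := p_MNF m_ths p_QUO m_red m_iso m_cms p_CON m_brz

end Pool.Agent.Lib.MP_4a8162_co.FB
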