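import Pool.Agent.Lib.MP_4a8162_co.FB.Basic

set_option autoImplicit false

/-!
# MP_4a8162_co, REAL FLOW ROOTS ARE BOUNDED: statements, part A (the coefficient functionals)
-/

namespace Pool.Agent.Lib.MP_4a8162_co.FB

open Finset
open scoped Classical

section defs

variable {V E : Type} [Fintype V] [Fintype E]

/-- the class of `a` -/
noncomputable def cls (π : Setoid V) (a : V) : Finset V := univ.filter fun b => π a b

/-- a union of classes -/
def Satd (π : Setoid V) (Y : Finset V) : Prop := ∀ a b, π a b → a ∈ Y → b ∈ Y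

/-- conditions: a set `S` of vertices; those of weight `x` have a set `X` to be separated, those
without `X` have weight `0` -/
structure Cd (V : Type) where
  S : Set V
  X : Option (Set V)

/-- the weight of the conditions which `ρ` satisfies -/
noncomputable def wt (x : ℝ) (ρ : Setoid V) (L : List (Cd V)) : ℝ :=
  (L.map fun c => if Sat ρ c.S then (if c.X.isSome then x else 0) else 1).prod

/-- the separated partition -/
def sp (ρ : Setoid V) (L : List (Cd V)) (σ : Setoid V) : Setoid V where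
  r a b := σ a b ∧ ∀ c ∈ L, Sat ρ c.S → ∀ X, c.X = some X → (a ∈ X ↔ b ∈ X)
  iseqv := by
    refine ⟨fun a => ⟨σ.refl a, fun _ _ _ _ _ => Iff.rfl⟩, ?_, ?_⟩
    · rintro a b ⟨h1, h2⟩
      exact ⟨σ.symm h1, fun c hc hs X hX => (h2 c hc hs X hX).symm⟩
    · rintro a b c ⟨h1, h2⟩ ⟨h3, h4⟩
      exact ⟨σ.trans h1 h3, fun d hd hs X hX => (h2 d hd hs X hX).trans (h4 d hd hs X hX)⟩

/-- the partition cut along `X` -/
def se (X : Set V) (σ : Setoid V) : Setoid V where
  r a b := σ a b ∧ (a ∈ X ↔ b ∈ X)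
  iseqv := by
    refine ⟨fun a => ⟨σ.refl a, Iff.rfl⟩, ?_, ?_⟩
    · rintro a b ⟨h1, h2⟩
      exact ⟨σ.symm h1, h2.symm⟩
    · rintro a b c ⟨h1, h2⟩ ⟨h3, h4⟩
      exact ⟨σ.trans h1 h3, h2.trans h4⟩

/-- the number of conditions of weight `x` which `ρ` satisfies -/
noncomputable def ns (ρ : Setoid V) (L : List (Cd V)) : ℕ :=
  (L.filter fun c => decide (Sat ρ c.S ∧ c.X.isSome = true)).length

/-- the sum with conditions -/
noncomputable def TT (p : E → V × V) (x : ℝ) (D : Finset E) (θ : Setoid V) (v h : V)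
    (A : Setoid V → (Setoid V → ℝ) →ₗ[ℝ] ℝ) (π : Setoid V) (L : List (Cd V))
    (g : Setoid V → ℝ) : ℝ :=
  ∑ ρ ∈ (FL p D θ v h).filter (fun ρ => π ≤ ρ),
    (1 / x) ^ (cs π - cs ρ) * wt x ρ L * A ρ (fun σ => g (sp ρ L σ))

/-- the classes of `π` which are not isolated and contain no marked vertex -/
noncomputable def uc (p : E → V × V) (D : Finset E) (v h : V) (π : Setoid V) :
    Finset (Finset V) :=
  (univ.image (cls π)).filter fun X => v ∉ X ∧ h ∉ X ∧
    ∃ e ∈ cutE p D π, (p e).1 ∈ X ∨ (p e).2 ∈ X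

/-- `X` with the classes of `π` which are adjacent to it -/
noncomputable def nbh (p : E → V × V) (D : Finset E) (π : Setoid V) (X : Finset V) : Finset V :=
  univ.filter fun b => b ∈ X ∨
    ∃ e ∈ D, ((p e).1 ∈ X ∧ π (p e).2 b) ∨ ((p e).2 ∈ X ∧ π (p e).1 b)

/-- the conditions of the classes in `K` -/
noncomputable def cd (p : E → V × V) (D : Finset E) (π : Setoid V) (K : Finset (Finset V)) :
    List (Cd V) :=
  K.toList.map fun X => ⟨(nbh p D π X : Set V), some (X : Set V)⟩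

/-- the components without `v` are single classes of `π` -/
def Wh (p : E → V × V) (D : Finset E) (θ : Setoid V) (v : V) (π : Setoid V) : Prop :=
  ∀ a b, (gen p D ⊔ θ) a b → ¬ (gen p D ⊔ θ) a v → π a b

/-- no dangling parts -/
def Str (p : E → V × V) (D : Finset E) (θ : Setoid V) (v h : V) (π : Setoid V) : Prop :=
  ∀ (a : V) (Y : Finset V), Y.Nonempty → Satd π Y → v ∉ Y → h ∉ Y →
    Disjoint (cls π a) Y → (∀ y ∈ Y, (gen p D ⊔ θ) y v) →
    ∃ e ∈ D, ((p e).1 ∈ Y ∧ (p e).2 ∉ Y ∧ (p e).2 ∉ cls π a) ∨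
      ((p e).2 ∈ Y ∧ (p e).1 ∉ Y ∧ (p e).1 ∉ cls π a)

end defs

/-- **[AEX]** The coefficient functionals exist.

PROOF. Define `B 0 π = 0` and
`B (n+1) π g = g π - ∑_{ρ ∈ FL, π < ρ} (1/x)^(cs π - cs (wi π ρ ρ)) * B n ρ (σ ↦ g (wi π ρ σ))`
(linear in `g`), and `A π = B (cs π) π`; by induction `B n π = B m π` for `cs π ≤ m`, `cs π ≤ n` (`π < ρ`
implies `cs ρ < cs π`: `cs_anti`, `eq_of_cs_le`; `cs π > 0` since `V` contains `v`). So
`(*) A π g = g π - ∑_{ρ ∈ FL, π < ρ} (1/x)^(...) A ρ (σ ↦ g (wi π ρ σ))`.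
Support: induction on `cs π`; for `π ≤ ρ`, `ρ ≤ σ ≤ full` (`full = gen p D ⊔ θ`) we have
`π ≤ wi π ρ σ ≤ full` (`Fl.le_full`, `wire_le_iff`), so the induction hypothesis for `A ρ` applies to
`σ ↦ g (wi π ρ σ)` and `σ ↦ g' (wi π ρ σ)`.
Identity: the terms with `π < ρ` are those of (*); for `ρ = π` the exponent is `cs π - cs (wi π π π) = 0`
(`wi π π π = π`) and `A π (σ ↦ g (wi π π σ)) = A π g` by the support property, since
`wi π π σ = σ` for `π ≤ σ ≤ full`, `π` a flat: by `sup_wire_rel`, if `σ a b` and not `π a b` then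
`full a b`, so both the class of `a` and the class of `b` have an edge of `cutE p D π` (the class of `a`
is not closed under the edges of `D`: `θ ≤ π`, and a set closed under `θ` and the edges of `D` is closed
under `full`), hence both contain an element of `Rv p D v h π`, and `wi π π σ` relates `a` and `b`. -/
def S_AEX : Prop := ∀ (V E : Type) [Fintype V] [Fintype E] (p : E → V × V) (x : ℝ) (D : Finset E)
  (θ : Setoid V) (v h : V), 0 < x → ∃ A : Setoid V → (Setoid V → ℝ) →ₗ[ℝ] ℝ, IsA p x D θ v h A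

/-- **[INT]** Description of the wired partition in terms of the satisfied conditions.

PROOF. Let `full = gen p D ⊔ θ`, `π ≤ ρ` flats in `FL`, `Wh π`, `full v h`. Call a class `X` of `π` interior if
it is in `uc` and `Sat ρ (nbh X)`. (1) If `X` is interior then no vertex of `X` is in `Rv ρ` (`v, h ∉ X`; an
edge of `cutE ρ` at `X` has its other end in `nbh X`, but not in the class of `ρ` of `X`). Conversely
if `X` is a class of `π` without vertices in `Rv ρ` and not isolated (some edge of `cutE π` at `X`) then `X` is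
interior. An isolated class `X` of `π` (no edge of `cutE π`) is a whole class of `full` (a set closed
under `θ ≤ π` and the edges of `D`), hence does not contain `v` or `h` (otherwise it contains both, but
`¬ π v h`) and it is also a class of `ρ` and of every `σ ≤ full`, `π ≤ σ`.
(2) First statement, for `ρ ≤ σ ≤ full`: by `sup_wire_rel` (`π ≤ σ`) `wi π ρ σ` relates `a, b` iff `π a b` or
both classes contain elements of `Rv ρ` and `σ a b`; `sp ρ (cd ..) σ` relates `a, b` iff `σ a b` and no interior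
class contains exactly one of them. If `σ a b` and not `π a b` then neither class is isolated by (1), so
`a` is in no interior class iff its class contains an element of `Rv ρ`; if `a` is in an interior class `X` then
`sp` relates `a` only to the elements of `X`, all `π`-related. Both descriptions agree.
(3) Second statement: each class `P` of `ρ` is either a whole component (then it does not contain `v`, since
`full v h`, `¬ ρ v h`; by `Wh` it is a single class of `π`, isolated, and one class of `wi π ρ ρ`) or it has an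
edge of `cutE ρ`, so it contains elements of `Rv ρ`; then the classes of `wi π ρ ρ` inside `P` are the interior
classes inside `P` and one more. So the number of classes of `wi π ρ ρ` is `cs ρ` plus the number of
interior classes, which is `ns ρ (cd π (uc π))`. (For instance through a bijection of
`Quotient (wi π ρ ρ)` with `Quotient ρ ⊕ {X // X ∈ uc, Sat ρ (nbh X)}`, or by joining the interior classes
one after the other to the rest with `cs_jn`.) -/
def S_INT : Prop := ∀ (V E : Type) [Fintype V] [Fintype E] (p : E → V × V) (D : Finset E)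
  (θ : Setoid V) (v h : V), (gen p D ⊔ θ) v h → ∀ π ∈ FL p D θ v h, Wh p D θ v π →
  ∀ ρ ∈ FL p D θ v h, π ≤ ρ →
    (∀ σ, ρ ≤ σ → σ ≤ gen p D ⊔ θ →
      wi p D v h π ρ σ = sp ρ (cd p D π (uc p D v h π)) σ) ∧
    cs (wi p D v h π ρ ρ) = cs ρ + ns ρ (cd p D π (uc p D v h π))

/-- **[TID]** The sum with all conditions is the value.

PROOF. `IsA` gives `g π = ∑_{ρ ≥ π} (1/x)^(cs π - cs (wi π ρ ρ)) A ρ (σ ↦ g (wi π ρ σ))`. By `S_INT` and the
support property (first part of `IsA`) `A ρ (σ ↦ g (wi π ρ σ)) = A ρ (σ ↦ g (sp ρ L σ))`, `L = cd π (uc π)`. All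
conditions of `L` have `X.isSome`, so `wt x ρ L = x ^ ns ρ L` (induction on the list). Finally
`(1/x)^(cs π - cs (wi π ρ ρ)) = (1/x)^(cs π - cs ρ) * x ^ ns ρ L` because
`cs (wi π ρ ρ) = cs ρ + ns ρ L ≤ cs π` (`cs_anti`, `π ≤ wi π ρ ρ`). -/
def S_TID : Prop := ∀ (V E : Type) [Fintype V] [Fintype E] (p : E → V × V) (x : ℝ) (D : Finset E)
  (θ : Setoid V) (v h : V) (A : Setoid V → (Setoid V → ℝ) →ₗ[ℝ] ℝ), 0 < x →
  IsA p x D θ v h A → (gen p D ⊔ θ) v h → ∀ π ∈ FL p D θ v h, Wh p D θ v π →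
  ∀ g : Setoid V → ℝ, TT p x D θ v h A π (cd p D π (uc p D v h π)) g = g π

/-- **[TST]** Toggling one condition. (`TT` at `π ⊔ wire c.S ⊤` is an empty sum if this partition relates
`v` and `h`.)

PROOF. `Sat ρ c.S ↔ wire c.S ⊤ ≤ ρ` (`wire_le_iff`), so the `ρ ≥ π` which satisfy `c` are the
`ρ ≥ π' := π ⊔ wire c.S ⊤`. If `¬ Sat ρ c.S` then `c` contributes the factor `1` to `wt` and nothing to `sp`. If
`Sat ρ c.S`, `c.X = some X`: the factor is `x` and `sp ρ (c :: L) σ = se X (sp ρ L σ)`. If `c.X = none` the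
factor is `0`. So the difference of the two sums is the sum over `ρ ≥ π'`, and
`(1/x)^(cs π - cs ρ) = (1/x)^(cs π - cs π') (1/x)^(cs π' - cs ρ)` (`cs_anti`). -/
def S_TST : Prop := ∀ (V E : Type) [Fintype V] [Fintype E] (p : E → V × V) (x : ℝ) (D : Finset E)
  (θ : Setoid V) (v h : V) (A : Setoid V → (Setoid V → ℝ) →ₗ[ℝ] ℝ) (π : Setoid V) (c : Cd V)
  (L : List (Cd V)) (g : Setoid V → ℝ),
  TT p x D θ v h A π (c :: L) g = TT p x D θ v h A π L g +
    (1 / x) ^ (cs π - cs (π ⊔ wire c.S ⊤)) *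
      ((match c.X with
        | none => 0
        | some X => x * TT p x D θ v h A (π ⊔ wire c.S ⊤) L (fun σ => g (se X σ))) -
        TT p x D θ v h A (π ⊔ wire c.S ⊤) L g)

/-- **[TPM]** `TT` only depends on the conditions up to order.

PROOF. `wt` is the product of a permuted list (`List.Perm.prod_eq` after `List.Perm.map`), `sp` only
depends on the members of the list. -/
def S_TPM : Prop := ∀ (V E : Type) [Fintype V] [Fintype E] (p : E → V × V) (x : ℝ) (D : Finset E)
  (θ : Setoid V) (v h : V) (A : Setoid V → (Setoid V → ℝ) →ₗ[ℝ] ℝ) (π : Setoid V)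
  (L L' : List (Cd V)) (g : Setoid V → ℝ), L.Perm L' →
  TT p x D θ v h A π L g = TT p x D θ v h A π L' g

/-- **[UCC]** How the classes change when a set `S` is joined: `π' = π ⊔ wire S ⊤`, `a₀ ∈ S`,
`M = cls π' a₀` the new class.
(1) for the classes `X` of `π` disjoint from `M` the conditions at `π` and at `π'` are equivalent for `ρ ≥ π'`;
(2) `uc π'` without `M` is the set of the `X ∈ uc π` disjoint from `M`;
(3) at most `cs π - cs π' + 1` classes of `π` lie inside `M`, and every class of `π` is disjoint from `M` or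
inside `M`.

PROOF. By `sup_wire_rel` with `σ = ⊤`: `π' x y` iff `π x y` or (`π x a`, `π b y` for some `a, b ∈ S`). So
`M` is the union of the classes of `π` which meet `S`, the other classes of `π'` are the classes of `π` disjoint
from `M`. (1) `nbh π X ⊆ nbh π' X`; if `b ∈ nbh π' X` through the edge `e` with `(p e).1 ∈ X`, `π' (p e).2 b`, then
`(p e).2 ∈ nbh π X`, and `ρ (p e).2 b` since `π' ≤ ρ`. (2) Let `X` be a class of `π` disjoint from `M`; an edge
`e ∈ cutE π` at `X` has its other end outside `X`, so `e ∈ cutE π'` (`X` is a class of `π'`), and conversely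
`cutE π' ⊆ cutE π`. (3) the classes of `π'` are `M` and the classes of `π` outside `M`:
`cs π' = 1 + (cs π - number of classes inside M)`; e.g. the map
`Quotient π → Quotient π'` is injective outside the classes inside `M` and sends those to `M`. -/
def S_UCC : Prop := ∀ (V E : Type) [Fintype V] [Fintype E] (p : E → V × V) (D : Finset E)
  (v h : V) (π : Setoid V) (S : Set V) (a₀ : V), a₀ ∈ S →
  (∀ X : Finset V, (∃ a, X = cls π a) → Disjoint X (cls (π ⊔ wire S ⊤) a₀) →
    ∀ ρ : Setoid V, π ⊔ wire S ⊤ ≤ ρ →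
      (Sat ρ (nbh p D π X : Set V) ↔ Sat ρ (nbh p D (π ⊔ wire S ⊤) X : Set V))) ∧
  (uc p D v h (π ⊔ wire S ⊤)).erase (cls (π ⊔ wire S ⊤) a₀) =
    (uc p D v h π).filter (fun X => Disjoint X (cls (π ⊔ wire S ⊤) a₀)) ∧
  ((univ.image (cls π)).filter (fun X => ¬ Disjoint X (cls (π ⊔ wire S ⊤) a₀))).card ≤
    cs π - cs (π ⊔ wire S ⊤) + 1 ∧
  (∀ X : Finset V, (∃ a, X = cls π a) → ¬ Disjoint X (cls (π ⊔ wire S ⊤) a₀) →
    X ⊆ cls (π ⊔ wire S ⊤) a₀)

/-- **[TEQ]** Consequence of (1) of `S_UCC` for the sums.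

PROOF. `wt` and `sp` only see the conditions through `Sat ρ c.S` and `c.X`, and only `ρ ≥ π'` occur. -/
def S_TEQ : Prop := ∀ (V E : Type) [Fintype V] [Fintype E] (p : E → V × V) (x : ℝ) (D : Finset E)
  (θ : Setoid V) (v h : V) (A : Setoid V → (Setoid V → ℝ) →ₗ[ℝ] ℝ) (π π' : Setoid V)
  (K : Finset (Finset V)) (L : List (Cd V)) (g : Setoid V → ℝ),
  (∀ X ∈ K, ∀ ρ : Setoid V, π' ≤ ρ →
    (Sat ρ (nbh p D π X : Set V) ↔ Sat ρ (nbh p D π' X : Set V))) →
  TT p x D θ v h A π' (cd p D π K ++ L) g = TT p x D θ v h A π' (cd p D π' K ++ L) g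

/-- **[EXC]** The excess of the full family is zero.

PROOF. Let `full = gen p D ⊔ θ`. Every class `P` of `ρ` contains a class `X_P` of `π` which is not a satisfied
member of `uc π`: if `P` has an edge `e ∈ cutE ρ` with an end `a ∈ P` take `X_P = cls π a` (`nbh X_P` contains the
other end of `e`, which is not in `P`, so `¬ Sat ρ (nbh X_P)`); otherwise `P` is closed under the edges of
`D` and under `θ`, so `P` is a class of `full`, `v ∉ P` (otherwise `h ∈ P` by `full v h`, but `¬ ρ v h`), by `Wh` `P`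
is a class of `π` and it is isolated, so it is not in `uc π`. The satisfied members of `uc π` and the
`cs ρ` classes `X_P` are different classes of `π`. (`ns ρ (cd π K)` is the number of `X ∈ K` with
`Sat ρ (nbh X)`.) -/
def S_EXC : Prop := ∀ (V E : Type) [Fintype V] [Fintype E] (p : E → V × V) (D : Finset E)
  (θ : Setoid V) (v h : V), (gen p D ⊔ θ) v h → ∀ π ∈ FL p D θ v h, Wh p D θ v π →
  ∀ ρ ∈ FL p D θ v h, π ≤ ρ → ∀ K ⊆ uc p D v h π, ns ρ (cd p D π K) + cs ρ ≤ cs π

/-- **[FLN]** Joining a class with its neighbours gives a flat, and joins at least two classes.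

PROOF. `π ⊔ wire (nbh X) ⊤ = gen p (Din π ∪ {e ∈ D with an end in X}) ⊔ θ`: `Fl.of_eq`. (`≥`: for `e ∈ D` with
an end in `X` both ends are in `nbh X`; `π = gen (Din π) ⊔ θ`. `≤`: `X` is a class of `π`, and every `b ∈ nbh X` is
`π`-related to the other end of an edge of `D` at `X`.) Since `X ∈ uc π` there is `e ∈ cutE π` at `X`, its ends
are not `π`-related but joined, so `cs` drops (`cs_anti`, `eq_of_cs_le`). -/
def S_FLN : Prop := ∀ (V E : Type) [Fintype V] [Fintype E] (p : E → V × V) (D : Finset E)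
  (θ : Setoid V) (v h : V) (π : Setoid V), Fl p D θ π → ∀ X ∈ uc p D v h π,
  Fl p D θ (π ⊔ wire (nbh p D π X : Set V) ⊤) ∧
    cs (π ⊔ wire (nbh p D π X : Set V) ⊤) < cs π

/-- **[BT]** The bound for the sums with conditions. `K'` are the removed conditions of classes, `L` the
additional ones, `e` the excess, `π₀` a base partition.

PROOF. Let `full = gen p D ⊔ θ`, `m = cs π - cs full`. Induction on `m`, then on `L.length`, then on
`K'.card`. Write `b(m, k, e) = 16^m 2^k x^e M`. Note `M ≥ 0`.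
Case `L = []`. By `S_EXC` the excess is `0` for all subfamilies; it is enough to bound by
`16^m 2^|K'| M` (since `1 ≤ x ^ e`). If `K' = ∅` this is `S_TID` (`|g π| ≤ M`). Otherwise take `X ∈ K'`,
`c = ⟨nbh X, some X⟩`, `L₀ = cd π (uc \ K')`; `cd π (uc \ (K'.erase X))` is a permutation of `c :: L₀`
(`S_TPM`). By `S_TST`
`TT π L₀ g = TT π (c :: L₀) g - (1/x)^Δ (x TT π' L₀ (g ∘ se X) - TT π' L₀ g)`, `π' = π ⊔ wire (nbh X) ⊤`,
`Δ = cs π - cs π' ≥ 1` (`S_FLN`). The first term is at most `b(m, |K'|-1, 0)` by induction. If `π' v h` the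
other terms are `0` (empty sums). Otherwise `π' ∈ FL`, `Wh π'`, and with `M₀ = cls π' a₀` (`a₀ ∈ X`): `L₀` is a
permutation of `cd π K₁ ++ cd π K₂`, `K₁` = the members of `uc \ K'` disjoint from `M₀`, `K₂` = those inside
`M₀`, at most `Δ` many because `X ∉ K₂` (`S_UCC` (3)); by `S_TEQ` and `S_UCC` (1) replace `cd π K₁` by
`cd π' K₁`, and `K₁ = uc π' \ K'₁` where `K'₁ ⊆ insert M₀ (K'.erase X)` (`S_UCC` (2)), so `|K'₁| ≤ |K'|`.
Apply the induction hypothesis at `π'` (`m' = m - Δ`) with the list `cd π K₂` (its conditions are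
connected: `π' ⊔ wire (nbh X') ⊤ = π' ⊔ (π ⊔ wire (nbh X') ⊤)` is a flat by `S_FLN`, `Fl.sup`; the sets `X'` are
unions of `π₀`-classes) and excess `Δ - 1`: `ns ρ (c :: L₀) + cs ρ ≤ cs π` by `S_EXC` and `c` is satisfied by
every `ρ ≥ π'`. Each of the two sums is at most `16^(m-Δ) 2^(|K'|+Δ) x^(Δ-1) M` (for `g ∘ se X`: `X` is a union
of `π₀`-classes, so `π₀ ≤ se X σ ≤ full` if `π₀ ≤ σ ≤ full`), and
`(1/x)^Δ (x+1) x^(Δ-1) 16^(-Δ) 2^Δ ≤ 2 / 8^Δ ≤ 1/4`. Sum: `≤ (1/2 + 1/4) b(m, |K'|, 0)`.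
Case `L = c :: L₁` (up to a permutation the whole list is `c :: (cd π (uc \ K') ++ L₁)`). Let
`π' = π ⊔ wire c.S ⊤`, `Δ = cs π - cs π'`. If `Δ = 0` then `π' = π`: if `c.X = none`, `S_TST` gives `0`. If
`c.X = some X`, `S_TST` gives `x TT π (cd π (uc \ K') ++ L₁) (g ∘ se X)`; the hypothesis at `ρ = π` gives
`e ≥ 1`, and for `L₁` the excess is `e - 1`; so the bound is `x b(m, |K'|+|L₁|, e-1)`. If `Δ ≥ 1`: by `S_TST`
the value is `TT π (.. ++ L₁) g` (at most `b(m, |K'|+|L₁|, e) = b(m, |K'|+|L|, e) / 2` by induction) plus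
`(1/x)^Δ ((x TT π' (.. ++ L₁) (g ∘ se X) or 0) - TT π' (.. ++ L₁) g)`, which is `0` if `π' v h`; otherwise as
before (`c.S` is nonempty since `Δ ≥ 1`; `|K₂| ≤ Δ + 1`, `|K'₁| ≤ |K'| + 1`, the new list is
`cd π K₂ ++ L₁`, excess `e + Δ - 1` if `c.X` is `some`, `e + Δ` if it is `none`) the absolute value is at
most `2 x^e 16^(m-Δ) 2^(|K'|+1+Δ+1+|L₁|) M = b(m, |K'|+|L|, e) * 4 / 8^Δ ≤ b(m, |K'|+|L|, e) / 2`. -/
def S_BT : Prop := ∀ (V E : Type) [Fintype V] [Fintype E] (p : E → V × V) (x : ℝ) (D : Finset E)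
  (θ : Setoid V) (v h : V) (A : Setoid V → (Setoid V → ℝ) →ₗ[ℝ] ℝ), 1 ≤ x →
  IsA p x D θ v h A → (gen p D ⊔ θ) v h → ∀ (π₀ : Setoid V), ∀ π ∈ FL p D θ v h, π₀ ≤ π →
  Wh p D θ v π → ∀ K' ⊆ uc p D v h π, ∀ (L : List (Cd V)) (g : Setoid V → ℝ) (M : ℝ) (e : ℕ),
  (∀ c ∈ L, Fl p D θ (π ⊔ wire c.S ⊤)) →
  (∀ c ∈ L, ∀ X, c.X = some X → ∀ a b, π₀ a b → (a ∈ X ↔ b ∈ X)) →
  (∀ ρ ∈ FL p D θ v h, π ≤ ρ →
    ns ρ (cd p D π (uc p D v h π \ K') ++ L) + cs ρ ≤ cs π + e) →
  (∀ σ, π₀ ≤ σ → σ ≤ gen p D ⊔ θ → |g σ| ≤ M) →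
  |TT p x D θ v h A π (cd p D π (uc p D v h π \ K') ++ L) g| ≤
    16 ^ (cs π - cs (gen p D ⊔ θ)) * 2 ^ (K'.card + L.length) * x ^ e * M

/-- **[BND]** The bound for the coefficient functionals.

PROOF. Let `L = (cutE p D π).toList.map (fun e => ⟨{(p e).1, (p e).2}, none⟩)`. Then
`A π g = TT π L g`: for `ρ = π` no condition is satisfied, `sp π L σ = σ`, `wt = 1`; for `ρ ∈ FL`, `π < ρ`, some edge
of `Din ρ` is not in `Din π` (otherwise `ρ = gen (Din ρ) ⊔ θ ≤ π`), it is in `cutE π` and its condition is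
satisfied, so `wt = 0`. Apply `S_BT` with `π₀ = π`, `K' = uc π` (`cd π ∅ = []`), `e = 0` (`ns ρ L = 0`; all
`c.X = none`; `Fl.sup_jn`, `jn a b = wire {a, b} ⊤`). With `m = cs π - cs full`, `b = |cutE π|`: `m ≤ b` because
`full = π ⊔ gl (list of the pairs p e, e ∈ cutE π)` (`cs_le_gl`), and `|uc π| ≤ m`: the members of `uc π` are
different from the class of `v` and lie in the same class of `full` as ... by `Wh` (the classes of `π` which
are not single components of `full` lie in the component of `v`): the class of `v` and `uc π` are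
different classes of `π` inside one class of `full`, so `cs full ≤ cs π - |uc π|`. So the bound is
`16^m 2^(|uc π| + b) M ≤ 64^b M`. -/
def S_BND : Prop := ∀ (V E : Type) [Fintype V] [Fintype E] (p : E → V × V) (x : ℝ) (D : Finset E)
  (θ : Setoid V) (v h : V) (A : Setoid V → (Setoid V → ℝ) →ₗ[ℝ] ℝ), 1 ≤ x →
  IsA p x D θ v h A → (gen p D ⊔ θ) v h → ∀ π ∈ FL p D θ v h, Wh p D θ v π →
  ∀ (g : Setoid V → ℝ) (M : ℝ), (∀ σ, π ≤ σ → σ ≤ gen p D ⊔ θ → |g σ| ≤ M) →
  |A π g| ≤ 64 ^ (cutE p D π).card * M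

/-- **[VAN]** The coefficient functional vanishes if there is a dangling part `Y` at a class `X`.

PROOF. Induction on `cs π`. Let `π' = π ⊔ wire (X ∪ Y) ⊤`, a flat. Identity of `IsA` at `π`:
`g π = ∑_{ρ ≥ π} (1/x)^(cs π - cs (wi π ρ ρ)) A ρ (σ ↦ g (wi π ρ σ))`.
(a) The `ρ ≥ π` with `¬ Sat ρ (X ∪ Y)`, `ρ ≠ π`: `A ρ = 0` by induction: let `X' = cls ρ a` (`X = cls π a`),
`Y' = Y \ X'`. A class of `ρ` which meets `Y` and does not contain `a` is contained in `Y`: it is connected
(`Fl`), `Y` is closed under `θ ≤ π`, and the edges of `D` which leave `Y` end in `X ⊆ X'`. So `Y'` is a union of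
classes of `ρ`, it is nonempty since `¬ Sat ρ (X ∪ Y)`, `v, h ∉ Y'`, edges of `D` from `Y'` end in `X' ∪ Y'`, and
`ρ ⊔ wire (X' ∪ Y') ⊤ = ρ ⊔ π'` is a flat (`Fl.sup`). `cs ρ < cs π`.
(b) The `ρ` with `Sat ρ (X ∪ Y)` are the `ρ ≥ π'`. Let `cut σ` be the partition which relates `a, b` iff
`π a b` or (`a ∉ Y`, `b ∉ Y`, `σ a b`) (for `σ ≥ π`; for other `σ` define `cut σ` as
`π ⊔ wire Yᶜ σ`). Use the identity of `IsA` at `π'` (if `π' v h` then there are no such `ρ` - but `π' v h` cannot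
happen: `X` is one class, `v, h ∉ Y`, `¬ π v h`; by `sup_wire_rel`) for the function `g' σ = g (cut σ)`:
`g' π' = g π` (`cut π' = π`) and for `ρ ≥ π'`, `σ ≥ ρ`: `cut (wi π' ρ σ) = wi π ρ σ` because `Rv ρ` is disjoint from
`Y` (the edges at `Y` stay inside `X ∪ Y`, inside one class of `ρ`); and
`cs π - cs (wi π ρ ρ) = cs π' - cs (wi π' ρ ρ)`: both differences do not see the classes inside `Y`
(`cs (cut σ) = cs σ + number of π-classes inside Y` for `σ = π'` and `σ = wi π' ρ ρ`, in which the classes of `Y` are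
joined to the class of `X`). With the support property (only `σ ≥ ρ` matter) the part (b) of the sum
equals `g' π' = g π`.
So `g π = A π (σ ↦ g (wi π π σ)) + g π`; with the support property (`wi π π σ = σ` for
`π ≤ σ ≤ full`, see `S_AEX`) `A π g = 0`. The term `ρ = π` is not in (b) since `X ∪ Y` is not inside one class of
`π`. -/
def S_VAN : Prop := ∀ (V E : Type) [Fintype V] [Fintype E] (p : E → V × V) (x : ℝ) (D : Finset E)
  (θ : Setoid V) (v h : V) (A : Setoid V → (Setoid V → ℝ) →ₗ[ℝ] ℝ), 0 < x →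
  IsA p x D θ v h A → ∀ π ∈ FL p D θ v h, ∀ (a : V) (Y : Finset V), Y.Nonempty → Satd π Y →
  v ∉ Y → h ∉ Y → Disjoint (cls π a) Y →
  (∀ e ∈ D, ((p e).1 ∈ Y → (p e).2 ∈ cls π a ∪ Y) ∧ ((p e).2 ∈ Y → (p e).1 ∈ cls π a ∪ Y)) →
  Fl p D θ (π ⊔ wire ((cls π a ∪ Y : Finset V) : Set V) ⊤) → A π = 0

/-- **[STR]** Structure of the flats with nonvanishing functional.

PROOF. Let `full = gen p D ⊔ θ`. First part (`Wh`): suppose `full a b`, `¬ full a v`, `¬ π a b`. Put
`Y = cls full a \ cls π a`; it is nonempty, `Satd π`, `v ∉ Y`, `h ∉ Y` (`full v h`), the edges of `D` at `Y` stay in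
`cls full a = cls π a ∪ Y`, and `π ⊔ wire (cls full a) ⊤ = gen p (Din π ∪ {e ∈ D : (p e).1 ∈ cls full a}) ⊔ θ`
is a flat (`Fl.of_eq`; the class of `full` is connected by its edges and `θ`). `S_VAN` gives `A π = 0`.
Second part: suppose no edge of `D` leads from `Y` to the outside of `Y ∪ P`, `P = cls π a`. Let
`t = gen p (Din π ∪ {e ∈ D : both ends in P ∪ Y}) ⊔ θ`. The set `Y₀` of the `y ∈ Y` which are not `t`-related to
`a` is closed under the edges of `D` (an edge from `Y₀` ends in `Y ∪ P`, so it is used in `t`, and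
its other end is not `t`-related to `a`, so it is not in `P` (all of `P` is `t`-related to `a`) and lies in `Y₀`) and
under `θ`, so under `full`; but `full y v` and `v ∉ Y`; so `Y₀ = ∅`. Hence `t = π ⊔ wire (P ∪ Y) ⊤`, it is a
flat, and `S_VAN` gives `A π = 0`, a contradiction. -/
def S_STR : Prop := ∀ (V E : Type) [Fintype V] [Fintype E] (p : E → V × V) (x : ℝ) (D : Finset E)
  (θ : Setoid V) (v h : V) (A : Setoid V → (Setoid V → ℝ) →ₗ[ℝ] ℝ), 0 < x →
  IsA p x D θ v h A → (gen p D ⊔ θ) v h → ∀ π ∈ FL p D θ v h, A π ≠ 0 →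
  Wh p D θ v π ∧ Str p D θ v h π

end Pool.Agent.Lib.MP_4a8162_co.FB
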