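import Pool.Agent.Lib.MP_4a8162_co.FB.StmA

set_option autoImplicit false

/-!
# MP_4a8162_co, REAL FLOW ROOTS ARE BOUNDED: statements, part B (counting)
-/

namespace Pool.Agent.Lib.MP_4a8162_co.FB

open Finset
open scoped Classical

section defs

variable {V E : Type} [Fintype V] [Fintype E]

/-- `J` contains `a`, avoids `I`, is connected, and every set in the complement of `J ∪ I` is joined to
the rest of the complement of `J` -/
def Good (p : E → V × V) (I : Finset V) (a : V) (J : Finset V) : Prop :=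
  a ∈ J ∧ Disjoint J I ∧ (∀ A : Finset V, A.Nonempty → A ⊂ J → Jo p A (J \ A)) ∧
    ∀ A : Finset V, A.Nonempty → Disjoint A (J ∪ I) → Jo p A (A ∪ J)ᶜ

/-- the admissible partitions of `Z` -/
noncomputable def Pt (p : E → V × V) (v : V) (Z : Finset V) : Finset (Finset (Finset V)) :=
  univ.filter fun Q => (∀ P ∈ Q, P.Nonempty) ∧ (∀ P ∈ Q, ∀ P' ∈ Q, P ≠ P' → Disjoint P P') ∧
    Q.biUnion id = Z ∧ (∀ P ∈ Q, ∀ A : Finset V, A.Nonempty → A ⊂ P → Jo p A (P \ A)) ∧
    ∀ P ∈ Q, ∀ A : Finset V, A.Nonempty → v ∉ A → A ⊆ Z \ P → Jo p A (A ∪ P)ᶜ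

/-- the component of `v` without the class of `h` -/
noncomputable def YY (p : E → V × V) (D : Finset E) (θ : Setoid V) (v h : V) (π : Setoid V) :
    Finset V :=
  cls (gen p D ⊔ θ) v \ cls π h

/-- the classes of `π` in the component of `v` which do not contain `h` -/
noncomputable def inn (p : E → V × V) (D : Finset E) (θ : Setoid V) (v h : V) (π : Setoid V) :
    Finset (Finset V) :=
  (univ.image (cls π)).filter fun P => P ⊆ cls (gen p D ⊔ θ) v ∧ h ∉ P

end defs

/-- **[CLE]** The contraction lemma.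

PROOF. For a partition `c` of `V` let `Φ c u = 0` if `cls c u` meets `I` or has at least `s` elements, and
`Φ c u = φ (cls c u).card` otherwise, `Pot c J = ∑_{e ∈ bd J} (Φ c (p e).1 + Φ c (p e).2)`,
`Z c = ∑_{J ∈ F, Satd c J} exp (-Pot c J)`. Claim `Z c ≤ C`, by induction on `cs c`. If all classes disjoint
from `I` have at least `s` elements then `Z c ≤` the number of terms `≤ C` (`Pot ≥ 0`). Otherwise let `A` be a
smallest class of `c` among the classes which are disjoint from `I` (so `A.card < s`), `a = A.card ≥ 1`,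
`d = (bd A).card`; so `2 ≤ d`, `ψ a ≤ d`. Let `J ∈ F`, `Satd c J`, `r = (bd A \ bd J).card`.
(1) `1 ≤ r`: `A ⊆ J` or `Disjoint A J`. If `A ⊆ J` then `A ≠ J` (`s ≤ J.card`) and some edge joins `A` and
`J \ A`: it is in `bd A` and not in `bd J`. If `A` is disjoint from `J`, it is disjoint from `J ∪ I`, and some
edge joins `A` and `(A ∪ J)ᶜ`: the same.
(2) For `e ∈ bd A \ bd J` let `c_e = c ⊔ jn (p e).1 (p e).2`. For `e ∈ bd A` and `J` with `Satd c J`:
`Satd c_e J ↔ e ∉ bd J` (`sup_jn_rel`).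
(3) `Pot c J - Pot c_e J ≥ (d - r) (φ a - φ (2 a))`: for every vertex `u`, `Φ c_e u ≤ Φ c u` (`φ` is
antitone and nonnegative, classes grow), and for `u ∈ A` we have `Φ c u = φ a` and `Φ c_e u ≤ φ (2 a)`: the
class of `u` in `c_e` is the union of `A` and the class `B` of the other end of `e`; if it is disjoint from `I`
then so is `B`, and `B.card ≥ a` by the choice of `A`. Each edge of `bd J ∩ bd A` (`d - r` many) has
exactly one end in `A`.
(4) `log (d / r) ≤ (d - r) * log d / (d - 1)` for `1 ≤ r ≤ d`, `2 ≤ d` (`log` is concave: `r` is a convex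
combination of `1` and `d`), and `log d / (d - 1) ≤ φ a - φ (2 a)`. So
`exp (-Pot c J) / r ≤ exp (-Pot c_e J) / d`.
So `Z c = ∑_J ∑_{e ∈ bd A \ bd J} exp (-Pot c J) / r ≤ ∑_{e ∈ bd A} (1/d) ∑_{J, Satd c_e J} exp (-Pot c_e J)
= ∑_{e ∈ bd A} (1/d) Z c_e ≤ C` (`cs c_e < cs c`, `cs_jn`: the ends of `e` are in different classes). Finally
for `c = ⊥` all `J` are saturated and `Pot ⊥ J ≤ 2 φ 1 (bd J).card`. -/
def S_CLE : Prop := ∀ (V E : Type) [Fintype V] [Fintype E] (p : E → V × V) (s : ℕ) (φ ψ : ℕ → ℝ)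
  (I : Finset V) (a : V) (F : Finset (Finset V)) (C : ℝ),
  Antitone φ → (∀ n, 0 ≤ φ n) →
  (∀ n : ℕ, 1 ≤ n → ∀ d : ℕ, 2 ≤ d → ψ n ≤ d → Real.log d ≤ (d - 1) * (φ n - φ (2 * n))) →
  (∀ A : Finset V, A.Nonempty → A.card < s → Disjoint A I →
    2 ≤ (bd p A).card ∧ ψ A.card ≤ (bd p A).card) →
  (∀ J ∈ F, s ≤ J.card ∧ Good p I a J) →
  (∀ c : Setoid V, (∀ u, Disjoint (cls c u) I → s ≤ (cls c u).card) →
    ((F.filter (Satd c)).card : ℝ) ≤ C) →
  ∑ J ∈ F, Real.exp (-(2 * φ 1)) ^ (bd p J).card ≤ C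

/-- **[PHI]** The potential exists.

PROOF. `φ n = 256 / √(1 + L)`, `L = logb 2 n` (and `L = 0` for `n = 0`). It is antitone and nonnegative. For
`n ≥ 1` with `L = logb 2 n`, `logb 2 (2 n) = L + 1` and
`φ n - φ (2 n) = 256 (1/√(1+L) - 1/√(2+L)) ≥ 128 / (2+L)^(3/2)` (
`1/√u - 1/√(u+1) = (√(u+1) - √u)/(√u √(u+1)) = 1/(√u √(u+1) (√u + √(u+1))) ≥ 1/(2 (u+1)^(3/2))`). On the other
hand `log d = 4 log (d^(1/4)) ≤ 4 d^(1/4)` and `d - 1 ≥ d/2`, so `log d / (d-1) ≤ 8 / d^(3/4)`. Since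
`log (n + 8) ≥ max (3 log 2) (L log 2) ≥ (3/5) (L+2) log 2` we get
`d ≥ psi n ≥ (log 2)^2 (9/25) (L+2)^2 / 6 ≥ (L+2)^2 / 36`, `d^(3/4) ≥ (L+2)^(3/2) / 36^(3/4)`, and
`8 * 36^(3/4) ≤ 128` because `36 ≤ 16^(4/3)` (`36^3 = 46656 ≤ 65536 = 16^4`). -/
def S_PHI : Prop := ∃ φ : ℕ → ℝ, Antitone φ ∧ (∀ n, 0 ≤ φ n) ∧
  ∀ n : ℕ, 1 ≤ n → ∀ d : ℕ, 2 ≤ d → psi n ≤ d → Real.log d ≤ (d - 1) * (φ n - φ (2 * n))

/-- **[NZZ]** A convergent sum.

PROOF. `z = 1/256`. `psi (2^j) ≥ j/4`: for `j ≤ 3` from `psi (2^j) ≥ log 9 ^ 2 / 6 ≥ 3/4` (`log 9 ≥ 2.19`), for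
`j ≥ 4` from `psi (2^j) ≥ (j log 2)^2 / 6 ≥ 0.08 j^2`. So `d j ≥ max 2 (j/4) ≥ 1 + j/8`, and
`z ^ d j ≤ z^(1 + j/8) = 1/256 * (1/2)^j`, `∑ ≤ 1/128`, and `1/128 + z^2 ≤ 1`. -/
def S_NZZ : Prop := ∃ z : ℝ, 0 < z ∧ z ≤ 1 ∧ ∀ (N : ℕ) (d : ℕ → ℕ),
  (∀ j < N, 2 ≤ d j ∧ psi (2 ^ j) ≤ d j) → ∑ j ∈ range N, z ^ d j + z ^ 2 ≤ 1

/-- **[PXX]** The sum over the good sets.

PROOF. `φ` from `S_PHI`, `z` from `S_NZZ`, `y = exp (-(2 φ 1)) * z`. Fix `p, I, a`. Note `bd J ≥ 2` for every
good `J` (`J ≠ univ` since `I` is nonempty).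
(1) Small sets: for `j : ℕ` let `F_j` be the good `J` with `2^j ≤ J.card < 2^(j+1)`, `2 * J.card ≤ card V`. If
`F_j` is nonempty apply `S_CLE` with `s = 2^j`, `ψ = psi`, `C = 1`: if `A.card < 2^j` then
`2 * A.card ≤ card V`, so `Iso` applies (`A ≠ univ`). If all classes of `c` disjoint from `I` have at least
`s` elements then a saturated `J ∈ F_j` is `cls c a`: it contains `cls c a`, which has at least `s` elements
(it is disjoint from `I`), and if there was another element `u ∈ J` outside of it then also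
`cls c u ⊆ J`, and `J.card ≥ 2 s`. So at most one `J`. Hence `∑_{J ∈ F_j} exp(-2 φ 1)^(bd J) ≤ 1`, and
`∑_{J ∈ F_j} y^(bd J) ≤ z^(d j)` where `d j = max 2 ⌈psi (2^j)⌉₊` (`(bd J).card ≥ d j` by `Iso`, `psi` is
monotone, `z ≤ 1`).
(2) Large sets: `F` = the good `J` with `card V < 2 * J.card`, `s = card V / 2 + 1`: `A.card < s` implies
`2 * A.card ≤ card V`. If all classes of `c` disjoint from `I` have at least `s` elements (more than half
of `V`) then again at most one `J` is saturated (`cls c a`). So `∑ exp(-2 φ 1)^(bd J) ≤ 1` and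
`∑ y^(bd J) ≤ z^2`.
Sum up (`j < card V + 1`) with `S_NZZ`. -/
def S_PXX : Prop := ∃ y : ℝ, 0 < y ∧ y ≤ 1 ∧ ∀ (V E : Type) [Fintype V] [Fintype E]
  (p : E → V × V), Iso p → ∀ (I : Finset V), I.Nonempty → ∀ a : V,
  ∑ J ∈ univ.filter (fun J => Good p I a J), y ^ (bd p J).card ≤ 1

/-- **[PSS]** The sum over the admissible partitions.

PROOF. Strong induction on `Z.card`. `Z = ∅`: the only admissible partition is `∅`, the sum is `1`.
`Z ≠ ∅`: let `a = v` if `v ∈ Z`, otherwise any element of `Z`. For `Q ∈ Pt p v Z` let `P` be the member which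
contains `a`. Then `Good p Zᶜ a P`: a nonempty `A` disjoint from `P ∪ Zᶜ` is contained in `Z \ P`, and
`v ∉ A` (if `v ∈ Z` then `v = a ∈ P`). Moreover `Q.erase P ∈ Pt p v (Z \ P)`, `(P, Q.erase P)` determines `Q`,
and the product over `Q` is `y ^ (bd P).card` times the product over `Q.erase P`. So the sum is at most
`∑_{P : Good p Zᶜ a P} y ^ (bd P).card * (sum for Z \ P) ≤ ∑_P y ^ (bd P).card ≤ 1` (`Z \ P` is smaller
than `Z` as `a ∈ P`, `a ∈ Z`; `Zᶜ` is nonempty). -/
def S_PSS : Prop := ∀ (V E : Type) [Fintype V] [Fintype E] (p : E → V × V) (y : ℝ), 0 ≤ y →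
  (∀ (I : Finset V), I.Nonempty → ∀ a : V,
    ∑ J ∈ univ.filter (fun J => Good p I a J), y ^ (bd p J).card ≤ 1) →
  ∀ (v : V) (Z : Finset V), Z ≠ univ →
    ∑ Q ∈ Pt p v Z, ∏ P ∈ Q, y ^ (bd p P).card ≤ 1

/-- **[CLU]** The cluster graph of a flat.

PROOF. Let `full = gen p D ⊔ θ`, `C = cls full v` (contains `h`).
(1) All classes of `full` different from `C` are classes of `π` (`Wh`), and `C` is the union of the members of
`inn` and of `cls π h`: so `cs π = (cs full - 1) + (inn.card + 1)`.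
(2) `P ⊆ C` is disjoint from `U`: for `a ∈ P ∩ U` we have `full a h`, so `θ a h` (`Cfg.hub`), `π a h`, `h ∈ P`.
So an edge with an end in `P` is in `D` (`Cfg.edges`). It is in `bd P` iff exactly one end is in `P` iff it is
in `cutE π` (an edge of `D` with one end in the class `P` of `π`).
(3) Let `Y = YY`. As in (2) `Y` is disjoint from `U` and an edge in `bd Y` is in `D`, its ends are in `C`,
so one end is in `Y` and the other one in `cls π h`. An edge of `cutE π` has both ends in `C` (otherwise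
by `Wh` its ends are `π`-related), in different classes. So the number of its ends in members of `inn`
plus the number of its ends in `cls π h` is `2`, and it has an end in `cls π h` iff it is in `bd Y`. Sum
over `cutE π`. -/
def S_CLU : Prop := ∀ (V E : Type) [Fintype V] [Fintype E] (p : E → V × V) (D : Finset E)
  (U : Finset V) (θ : Setoid V) (v h : V), Cfg p D U θ → v ∉ U → h ∈ U → (gen p D ⊔ θ) v h →
  ∀ π ∈ FL p D θ v h, Wh p D θ v π →
  (inn p D θ v h π).card + cs (gen p D ⊔ θ) = cs π ∧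
  (inn p D θ v h π).biUnion id = YY p D θ v h π ∧
  Disjoint (YY p D θ v h π) U ∧
  (∀ P ∈ inn p D θ v h π, P.Nonempty ∧ ∀ e, e ∈ bd p P ↔ e ∈ cutE p D π ∧ ((p e).1 ∈ P ∨ (p e).2 ∈ P)) ∧
  ∑ P ∈ inn p D θ v h π, (bd p P).card + (bd p (YY p D θ v h π)).card = 2 * (cutE p D π).card

/-- **[EXN]** The exponent.

PROOF. Let `N = inn`, `n = N.card`, `b = (cutE π).card`, `Y = YY`. By `S_CLU` `cs π = n + cs full` and
`∑_{P ∈ N} (bd P).card + (bd Y).card = 2 b`. All `P ∈ N` and `Y` are nonempty (`v ∈ Y`) and do not contain `h`, so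
their boundaries have at least `2` elements (`Iso`). So `2 n + 2 ≤ 2 b`, the first claim.
Second claim (`14 n ≤ 13 b`): it is clear if `n ≤ 13` (`n + 1 ≤ b`). Let `N2` be the `P ∈ N` with
`(bd P).card = 2`. Note `card V ≥ n + 1` (the members of `N` are disjoint and `h` is outside).
(A) If some `P ∈ N2` has `Pᶜ.card ≤ 2` then `n ≤ 3`. So suppose `P.card ≤ 2` for all `P ∈ N2` (`Iso`).
(B) Suppose there are different `P1, P2, P3 ∈ N2` such that `P2` is joined by edges to `P1` and to `P3`. Let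
`T = P1 ∪ P2 ∪ P3`; `(bd T).card ≤ 6 - 4 = 2` (every edge of `bd T` is in exactly one of the three
boundaries, an edge between two of the sets is in two of them and not in `bd T`), `T ≠ univ`, so
`(bd T).card = 2`; `T.card ≥ 3`, so `Tᶜ.card ≤ 2`, and `n ≤ 3 + 2`.
(C) Otherwise every `P ∈ N2` has an edge `e_P ∈ bd P` whose other end is not in a member of `N2`: if both
edges of `bd P` go to members `P', P''` of `N2` then `P' = P''` by (B), and then `bd (P ∪ P') = ∅`,
contradicting `Iso` (`h ∉ P ∪ P'`). The map `P ↦ e_P` is injective and `e_P` is in `bd Y` or in `bd P'` for some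
`P' ∈ N` with `(bd P').card ≥ 3` (`S_CLU`: an edge of `cutE π` has its ends in `cls π h` and members of `N`). So with
`t = (bd Y).card`, `n3 = (N \ N2).card`, `s3 = ∑_{P ∈ N \ N2} (bd P).card ≥ 3 n3`: `N2.card ≤ t + s3` and
`2 b = t + 2 N2.card + s3`, `n = N2.card + n3`. So
`14 n = 14 N2.card + 14 n3 ≤ 13 N2.card + (t + s3) + (14/3) s3 ≤ 13 N2.card + (13/2) (t + s3) = 13 b`. -/
def S_EXN : Prop := ∀ (V E : Type) [Fintype V] [Fintype E] (p : E → V × V) (D : Finset E)
  (U : Finset V) (θ : Setoid V) (v h : V), Iso p → Cfg p D U θ → v ∉ U → h ∈ U →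
  (gen p D ⊔ θ) v h → ∀ π ∈ FL p D θ v h, Wh p D θ v π →
  cs π + 1 ≤ cs (gen p D ⊔ θ) + (cutE p D π).card ∧
  14 * cs π ≤ 13 * (cutE p D π).card + 14 * cs (gen p D ⊔ θ)

/-- **[MAP]** The flats with nonvanishing functional give good sets and admissible partitions.

PROOF. Let `full = gen p D ⊔ θ`, `C = cls full v`, `Y = YY = C \ cls π h`, disjoint from `U` (`S_CLU`), `v ∈ Y`.
Every class `P` of `π` in `C` different from `cls π h` is disjoint from `U` and connected: if
`∅ ≠ A ⊂ P` then `A` is not closed under `Din π` (`Fl`: `P` is a class of `gen (Din π) ⊔ θ`; `θ` is trivial outside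
`U`), so some edge of `Din π` joins `A` and `P \ A`.
`Good p U v Y`: (connected) let `∅ ≠ A ⊂ Y` and suppose no edge joins `A` and `Y \ A`. Let `B = A` if `v ∉ A`,
otherwise `B = Y \ A`. Then no edge joins `B` and `Y \ B`, `B` is nonempty, `v ∉ B`. `B` is a union of classes of
`π` (these are connected), so `Str` for `B` and `cls π h` gives an edge `e ∈ D` from `B` to a vertex outside `B`
and outside `cls π h`; this vertex is in `C`, hence in `Y \ B`, a contradiction.
(complement) let `A` be nonempty, disjoint from `Y ∪ U`. Take `a ∈ A`, `K = cls full a`, `B = A ∩ K`. If `K ≠ C`: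
`K` contains a vertex of `U` (`Cfg.att`), so `B ≠ K`; `K` is a class of `full = gen p D ⊔ θ` and `B` is closed
under `θ` (it is disjoint from `U`), so some edge of `D` leads from `B` to `K \ B`; this is outside of `A`
and of `Y` (`Y ⊆ C`). If `K = C`: `B ⊆ cls π h`, `h ∉ B` (`h ∈ U`), `cls π h` is a class of `gen (Din π) ⊔ θ`, and
in the same way some edge leads from `B` to `cls π h \ B`, outside of `A ∪ Y`.
`inn ∈ Pt p v Y`: disjoint nonempty classes with union `Y` (`S_CLU`), connected as above. Last property: let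
`P ∈ inn`, `∅ ≠ A ⊆ Y \ P`, `v ∉ A`. If `A` is a union of classes of `π` then `Str` gives an edge of `D` from `A` to
a vertex outside `A ∪ P`. Otherwise there is a class `P'` of `π` with `A ∩ P' ≠ ∅`, `P' \ A ≠ ∅`; `P' ≠ P`, `P' ⊆ Y`;
`P'` is connected, so some edge joins `A ∩ P'` and `P' \ A`, which is outside `A ∪ P`. -/
def S_MAP : Prop := ∀ (V E : Type) [Fintype V] [Fintype E] (p : E → V × V) (D : Finset E)
  (U : Finset V) (θ : Setoid V) (v h : V), Cfg p D U θ → v ∉ U → h ∈ U → (gen p D ⊔ θ) v h →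
  ∀ π ∈ FL p D θ v h, Wh p D θ v π → Str p D θ v h π →
  Good p U v (YY p D θ v h π) ∧ inn p D θ v h π ∈ Pt p v (YY p D θ v h π)

/-- **[INJ]** The inner classes determine the flat.

PROOF. Let `full = gen p D ⊔ θ`. `π a b` implies `full a b`. If `full a b` and not `full a v` then `π a b` by `Wh`. If
`full a v`, `full b v`: `π a b` iff `a, b` are in a common member of `inn π`, or in no member of `inn π` (then both
are in `cls π h`). So `π` is determined by `inn π`. -/
def S_INJ : Prop := ∀ (V E : Type) [Fintype V] [Fintype E] (p : E → V × V) (D : Finset E)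
  (θ : Setoid V) (v h : V), (gen p D ⊔ θ) v h → ∀ π ∈ FL p D θ v h, ∀ π' ∈ FL p D θ v h,
  Wh p D θ v π → Wh p D θ v π' → inn p D θ v h π = inn p D θ v h π' → π = π'

/-- **[CNT]** The sum over the flats with nonvanishing functional.

PROOF. `y0` from `S_PXX`, `y = y0 ^ 2`. For `π` in the sum, `S_STR` gives `Wh` and `Str`; by `S_CLU`
`y ^ (cutE π).card = y0 ^ (bd Y).card * ∏_{P ∈ inn π} y0 ^ (bd P).card`, `Y = YY π` is the union of `inn π`. By
`S_MAP` and `S_INJ` the sum is at most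
`∑_{Y : Good p U v Y} y0 ^ (bd Y).card * ∑_{Q ∈ Pt p v Y} ∏_{P ∈ Q} y0 ^ (bd P).card` (all terms are
nonnegative; `Q` determines `Y`), which is at most `1` by `S_PSS` (`Y ≠ univ` since `h ∈ U` is not in `Y`) and
`S_PXX` with `I = U`. -/
def S_CNT : Prop := ∃ y : ℝ, 0 < y ∧ y ≤ 1 ∧ ∀ (V E : Type) [Fintype V] [Fintype E]
  (p : E → V × V) (x : ℝ) (D : Finset E) (U : Finset V) (θ : Setoid V) (v h : V)
  (A : Setoid V → (Setoid V → ℝ) →ₗ[ℝ] ℝ), 0 < x → Iso p → Cfg p D U θ → v ∉ U → h ∈ U →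
  (gen p D ⊔ θ) v h → IsA p x D θ v h A →
  ∑ π ∈ (FL p D θ v h).filter (fun π => A π ≠ 0), y ^ (cutE p D π).card ≤ 1

end Pool.Agent.Lib.MP_4a8162_co.FB
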