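import Pool.Agent.Lib.MP_4a8162_co.FB.StmB

set_option autoImplicit false

/-!
# MP_4a8162_co, REAL FLOW ROOTS ARE BOUNDED: statements, part C (the expansion and the induction)
-/

namespace Pool.Agent.Lib.MP_4a8162_co.FB

open Finset
open scoped Classical

section defs

variable {V E : Type} [Fintype V] [Fintype E]

/-- the coefficient function of the expansion -/
noncomputable def Gs (p : E → V × V) (x : ℝ) (D : Finset E) (θ : Setoid V) (v h : V)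
    (ρ : Setoid V) (g : Setoid V → ℝ) (σ : Setoid V) : ℝ :=
  ∑ B ∈ (Din p D ρ).powerset, (-(1 / x)) ^ B.card *
    x ^ cs (gen p (Din p D ρ \ B) ⊔ θ ⊔ wire (Rv p D v h ρ) ρ) *
    g (gen p (Din p D ρ \ B) ⊔ θ ⊔ wire (Rv p D v h ρ) σ)

/-- the sum over the subgraphs which do not connect `v` and `h` -/
noncomputable def EE (p : E → V × V) (x : ℝ) (D : Finset E) (θ : Setoid V) (v h : V)
    (g : Setoid V → ℝ) : ℝ :=
  ∑ B ∈ D.powerset.filter (fun B => ¬ (gen p (D \ B) ⊔ θ) v h), (-(1 / x)) ^ B.card *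
    x ^ cs (gen p (D \ B) ⊔ θ) * g (gen p (D \ B) ⊔ θ)

/-- the wired vertices of the new configuration -/
noncomputable def UR (p : E → V × V) (D : Finset E) (U : Finset V) (v h : V) (ρ : Setoid V) :
    Finset V :=
  univ.filter fun a => a ∈ U ∨ a ∈ Rv p D v h ρ

/-- positivity for the configurations with less than `n` vertices outside `U` -/
def Pos (p : E → V × V) (x : ℝ) (f : Setoid V → ℝ) (n : ℕ) : Prop :=
  ∀ (D : Finset E) (U : Finset V) (θ : Setoid V) (l : List (V × V)), Cfg p D U θ → Uᶜ.card < n →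
    (∀ e ∈ l, e.1 ∈ U ∧ e.2 ∈ U) → Forest l (gen p D ⊔ θ) →
    0 ≤ q p x D θ (fe l f) ∧ (0 < fe l f (gen p D ⊔ θ) → 0 < q p x D θ (fe l f))

/-- the quotient estimate for the configurations with less than `n` vertices outside `U` -/
def Rat (p : E → V × V) (x : ℝ) (f : Setoid V → ℝ) (ε : ℝ) (n : ℕ) : Prop :=
  ∀ (D : Finset E) (U : Finset V) (θ : Setoid V) (l : List (V × V)) (v h : V), Cfg p D U θ →
    Uᶜ.card < n → (∀ e ∈ l, e.1 ∈ U ∧ e.2 ∈ U) → Forest l (gen p D ⊔ θ) → v ∉ U → h ∈ U →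
    (gen p D ⊔ θ) v h →
    |q p x D θ (fe l f) - q p x D (θ ⊔ jn v h) (fe l f)| ≤ ε * q p x D (θ ⊔ jn v h) (fe l f)

end defs

/-- **[DEL]** The effect of wiring `v` to `h`.

PROOF. Let `π_B = gen p (D \ B) ⊔ θ`. `gen p (D \ B) ⊔ (θ ⊔ jn v h) = π_B ⊔ jn v h`. The terms with `π_B v h` are
equal (`sup_jn_of_rel`). For the others `cs (π_B ⊔ jn v h) + 1 = cs π_B` (`cs_jn`), so
`x ^ cs (π_B ⊔ jn v h) = (1/x) * x ^ cs π_B`. -/
def S_DEL : Prop := ∀ (V E : Type) [Fintype V] [Fintype E] (p : E → V × V) (x : ℝ) (D : Finset E)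
  (θ : Setoid V) (v h : V) (g : Setoid V → ℝ), 0 < x →
  q p x D θ g - q p x D (θ ⊔ jn v h) g =
    EE p x D θ v h g - 1 / x * EE p x D θ v h (fun σ => g (σ ⊔ jn v h))

/-- **[EXP]** The expansion.

PROOF. For `B` with `¬ π_B v h` (`π_B = gen p (D \ B) ⊔ θ`) `π_B ∈ FL` (`Fl.pi`). The identity in `IsA` at `π_B` and
`cs (wi π_B ρ ρ) ≤ cs π_B` (`cs_anti`, `π_B ≤ wi π_B ρ ρ`) give
`x^(cs π_B) g π_B = ∑_{ρ ∈ FL, π_B ≤ ρ} x^(cs (wi π_B ρ ρ)) A ρ (σ ↦ g (wi π_B ρ σ))`. Exchange the sums: for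
`ρ ∈ FL` the `B ⊆ D` with `π_B ≤ ρ` are those with `cutE ρ ⊆ B` (`pi_le_iff`; then automatically `¬ π_B v h`
because `¬ ρ v h`), that is `B = cutE ρ ∪ B'`, `B' ⊆ Din ρ` (disjoint union, `Din_union_cutE`), and
`D \ B = Din ρ \ B'` (`sdiff_cutE_union`), `wi π_B ρ σ = gen p (Din ρ \ B') ⊔ θ ⊔ wire (Rv ρ) σ`. By linearity of
`A ρ` the sum over `B'` is `(-(1/x))^(cutE ρ).card * A ρ (Gs ρ g)`. -/
def S_EXP : Prop := ∀ (V E : Type) [Fintype V] [Fintype E] (p : E → V × V) (x : ℝ) (D : Finset E)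
  (θ : Setoid V) (v h : V) (A : Setoid V → (Setoid V → ℝ) →ₗ[ℝ] ℝ), 0 < x →
  IsA p x D θ v h A → ∀ g : Setoid V → ℝ,
  EE p x D θ v h g =
    ∑ ρ ∈ FL p D θ v h, (-(1 / x)) ^ (cutE p D ρ).card * A ρ (Gs p x D θ v h ρ g)

/-- **[GJN]** Joining `v` and `h` afterwards.

PROOF. `wire R σ ⊔ jn v h = wire R (σ ⊔ jn v h)` for `v, h ∈ R` (`R = Rv ρ`): `≥` by `wire_le_iff` and
`sup_jn_rel`: for `a, b ∈ R` with `σ a v`, `σ h b` the partition on the left relates `a, v, h, b`. -/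
def S_GJN : Prop := ∀ (V E : Type) [Fintype V] [Fintype E] (p : E → V × V) (x : ℝ) (D : Finset E)
  (θ : Setoid V) (v h : V) (ρ σ : Setoid V) (g : Setoid V → ℝ),
  Gs p x D θ v h ρ (fun τ => g (τ ⊔ jn v h)) σ = Gs p x D θ v h ρ g (σ ⊔ jn v h)

/-- **[RCH]** Steps between the flat and the components.

PROOF. Let `full = gen p D ⊔ θ`, `τ a' b'`, `¬ σ a' b'`. Every class `P` of `ρ` which contains no vertex of `Rv ρ` has no
edge of `cutE ρ`, so it is closed under the edges of `D` and `θ`, hence under `full ≥ τ`. Since `τ a' b'` and not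
`ρ a' b'` the classes of `a'` and of `b'` in `ρ` contain vertices `a, b ∈ Rv ρ`, and `τ a b`, `¬ σ a b` (`ρ ≤ σ ≤ τ`). -/
def S_RCH : Prop := ∀ (V E : Type) [Fintype V] [Fintype E] (p : E → V × V) (D : Finset E)
  (θ : Setoid V) (v h : V), ∀ ρ ∈ FL p D θ v h, ∀ σ τ : Setoid V, ρ ≤ σ → σ ≤ τ →
  τ ≤ gen p D ⊔ θ → σ ≠ τ → ∃ a ∈ Rv p D v h ρ, ∃ b ∈ Rv p D v h ρ, τ a b ∧ ¬ σ a b

/-- **[CFO]** Wiring one vertex.

PROOF. Let `full = gen p D ⊔ θ`; `gen p D ⊔ (θ ⊔ jn v h) = full` since `full v h`. `wired`: `sup_jn_rel`. `edges`: let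
`e ∈ D` with both ends in `insert v U`. Both in `U`: `θ`. One end `v`, the other one `u ∈ U`: `full u v`, `full u h`,
so `θ u h` (`hub`). Both `v`: reflexive. Conversely let the ends be related by `θ ⊔ jn v h` if they are both in
`insert v U`; if both are in `U` they are related by `full`, so by `θ` (`hub`), so `e ∈ D`. `hub`: `full a b`; if both
are in `U` use `hub`; if `a = v`, `b ∈ U`: `full b h`, `θ b h`. `att`: clear. -/
def S_CFO : Prop := ∀ (V E : Type) [Fintype V] [Fintype E] (p : E → V × V) (D : Finset E)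
  (U : Finset V) (θ : Setoid V) (v h : V), Cfg p D U θ → v ∉ U → h ∈ U → (gen p D ⊔ θ) v h →
  Cfg p D (insert v U) (θ ⊔ jn v h) ∧ gen p D ⊔ (θ ⊔ jn v h) = gen p D ⊔ θ

/-- **[CFR]** The new configuration.

PROOF. Let `full = gen p D ⊔ θ`, `C` the class of `v` and `h` in `full`, `R = Rv ρ`, `U' = U ∪ R = UR`,
`θ' = θ ⊔ wire R σ`, `D' = Din p D σ`. Facts: (i) `θ ≤ ρ ≤ σ`, `θ' ≤ σ ≤ full`, `gen p D' ≤ σ`. (ii) `R ⊆ C`: an edge of
`cutE ρ` has its ends in `C`, otherwise by `Wh` its ends are `ρ`-related. (iii) A vertex `a ∈ U ∩ C` is `θ`-related to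
`h` (`hub`). So every vertex in `U' ∩ C` is `θ`-related to a vertex of `R`. (iv) If `a, b ∈ U' ∩ C`, `σ a b` then
`θ' a b` (by (iii), `θ ≤ σ`). (v) If `a, b ∈ U' \ C` and `full a b` then `a, b ∈ U` and `θ a b` (`hub`).
`wired`: `θ` joins only vertices of `U`, `wire R σ` only vertices of `R` (show that `θ'` is below
the partition `a = b ∨ (a ∈ U' ∧ b ∈ U')`). `edges`: `e ∈ D'` with both ends in `U'`: the ends are `σ`-related,
use (iv), (v). Conversely suppose the ends are `θ'`-related if both are in `U'`. If both ends are in `U'`: the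
ends are `σ`- and `full`-related; if both are in `U`, `hub` gives `θ` and `e ∈ D` by `edges`; if not both are in `U`
then `e ∈ D`; so `e ∈ D'`. If not both are in `U'` then `e ∈ D` and `e ∉ cutE ρ` (its ends would be in `R`), so its
ends are `ρ`-related, `e ∈ D'`. `hub`: (iv), (v), since `gen p D' ⊔ θ' ≤ σ`. `att`: let `w` be given, `P` its class in
`ρ = gen (Din ρ) ⊔ θ ≤ gen D' ⊔ θ'`. If `P` meets `R` we are done. Otherwise `P` has no edge of `cutE ρ`, it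
is closed under `D` and `θ`, so it is a class of `full` and contains a vertex of `U` by `att`.
The last equality: `≤` (i). `≥`: let `σ a b`; if not in `C`: `full a b`, so `ρ a b` (`Wh`) and
`ρ = gen (Din ρ) ⊔ θ`. In `C`: the classes of `a` and `b` in `ρ` are not closed (otherwise they would be equal to `C`,
but `¬ ρ v h`), so they contain vertices of `R`, related by `wire R σ`. -/
def S_CFR : Prop := ∀ (V E : Type) [Fintype V] [Fintype E] (p : E → V × V) (D : Finset E)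
  (U : Finset V) (θ : Setoid V) (v h : V), Cfg p D U θ → v ∉ U → h ∈ U → (gen p D ⊔ θ) v h →
  ∀ ρ ∈ FL p D θ v h, Wh p D θ v ρ → ∀ σ : Setoid V, ρ ≤ σ → σ ≤ gen p D ⊔ θ →
  Cfg p (Din p D σ) (UR p D U v h ρ) (θ ⊔ wire (Rv p D v h ρ) σ) ∧
    gen p (Din p D σ) ⊔ (θ ⊔ wire (Rv p D v h ρ) σ) = σ

/-- **[GQQ]** The coefficient function is a state sum of the new configuration.

PROOF. Let `R = Rv ρ`, `J = Din σ \ Din ρ ⊆ cutE ρ`. (1) `cs (π ⊔ wire R ρ) + cs σ = cs (π ⊔ wire R σ) + cs ρ` for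
`π = gen p (Din ρ \ B) ⊔ θ ≤ ρ`: induction on `cs ρ' - cs σ` for `ρ ≤ ρ' ≤ σ` of the statement
`cs (π ⊔ wire R ρ') + cs σ = cs (π ⊔ wire R σ) + cs ρ'`: if `ρ' ≠ σ` then `S_RCH` gives `a, b ∈ R`, `σ a b`,
`¬ ρ' a b`; go to `ρ'' = ρ' ⊔ jn a b`; `wire R ρ'' ⊔ π = π ⊔ wire R ρ' ⊔ jn a b` and `¬ (π ⊔ wire R ρ') a b` because
`π ⊔ wire R ρ' ≤ ρ'`; use `cs_jn` twice. So
`Gs ρ g σ = x^(cs ρ - cs σ) * q p x (Din ρ) (θ ⊔ wire R σ) g`.
(2) `q p x (Din σ) θ' g = (1 - 1/x)^J.card * q p x (Din ρ) θ' g`, `θ' = θ ⊔ wire R σ`: the edges of `J` have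
`θ'`-related ends (both ends are in `R` and `σ`-related), so for `B = B1 ∪ B2`, `B1 ⊆ Din ρ`, `B2 ⊆ J` the partition
`gen p (Din σ \ B) ⊔ θ'` is `gen p (Din ρ \ B1) ⊔ θ'`; and `∑_{B2 ⊆ J} (-(1/x))^B2.card = (1 - 1/x)^J.card`. -/
def S_GQQ : Prop := ∀ (V E : Type) [Fintype V] [Fintype E] (p : E → V × V) (x : ℝ) (D : Finset E)
  (θ : Setoid V) (v h : V), 0 < x → ∀ ρ ∈ FL p D θ v h, ∀ σ : Setoid V, ρ ≤ σ →
  σ ≤ gen p D ⊔ θ → ∀ g : Setoid V → ℝ,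
  (1 - 1 / x) ^ (Din p D σ \ Din p D ρ).card * Gs p x D θ v h ρ g σ =
    x ^ (cs ρ - cs σ) * q p x (Din p D σ) (θ ⊔ wire (Rv p D v h ρ) σ) g

/-- **[QUU]** The state sum if all vertices are wired.

PROOF. `gen p D ⊔ θ = θ` by `hub`, so all edges of `D` have `θ`-related ends and all partitions in the sum are equal to
`θ`; `∑_{B ⊆ D} (-(1/x))^B.card = (1 - 1/x)^D.card`. -/
def S_QUU : Prop := ∀ (V E : Type) [Fintype V] [Fintype E] (p : E → V × V) (x : ℝ) (D : Finset E)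
  (θ : Setoid V) (g : Setoid V → ℝ), Cfg p D univ θ →
  gen p D ⊔ θ = θ ∧ q p x D θ g = (1 - 1 / x) ^ D.card * x ^ cs θ * g θ

/-- **[CMP]** Monotonicity of the coefficient function.

PROOF. Let `full = gen p D ⊔ θ`, `R = Rv ρ`, `G l σ = Gs ρ (fe l f) σ`. (1) `0 ≤ G l' σ` for every `ρ ≤ σ ≤ full` and
every list `l'` with ends in `UR` and `Forest l' σ`: `S_GQQ`, `S_CFR` and `Pos` (`URᶜ.card < Uᶜ.card` since
`v ∈ UR \ U`, `U ⊆ UR`; `1 - 1/x > 0`). With `l' = l` (`forest_mono`) this is the first claim. (2) Second claim: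
induction on `cs σ`. If `σ ≠ full` then by `S_RCH` there are `a', b' ∈ R`, `full a' b'`, `¬ σ a' b'`; `R` is contained in
the class of `h` in `full` (`Wh`: the ends of an edge in `cutE ρ` are `full`-related but not `ρ`-related), so one of
`a', b'`, say `a`, satisfies `¬ σ a h`, `full a h`. Let `σ' = σ ⊔ jn a h ≤ full`; `wire R σ' = wire R σ ⊔ jn a h` up to
joining with `θ` (`a, h ∈ R`), so by the definition of `fe`
`G l σ' - G l σ = G ((a, h) :: l) σ ≥ 0` by (1): `forest_cons`, `Forest l σ'` by `forest_mono`. And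
`G l σ' ≤ G l full` by induction (`cs σ' < cs σ`). -/
def S_CMP : Prop := ∀ (V E : Type) [Fintype V] [Fintype E] (p : E → V × V) (x : ℝ) (D : Finset E)
  (U : Finset V) (θ : Setoid V) (v h : V) (f : Setoid V → ℝ) (l : List (V × V)), 1 < x →
  Cfg p D U θ → v ∉ U → h ∈ U → (gen p D ⊔ θ) v h → (∀ e ∈ l, e.1 ∈ U ∧ e.2 ∈ U) →
  Forest l (gen p D ⊔ θ) → Pos p x f Uᶜ.card →
  ∀ ρ ∈ FL p D θ v h, Wh p D θ v ρ → ∀ σ : Setoid V, ρ ≤ σ → σ ≤ gen p D ⊔ θ →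
  0 ≤ Gs p x D θ v h ρ (fe l f) σ ∧
    Gs p x D θ v h ρ (fe l f) σ ≤ Gs p x D θ v h ρ (fe l f) (gen p D ⊔ θ)

/-- **[GRW]** The growth estimate.

PROOF. Let `full = gen p D ⊔ θ`, `R = Rv ρ`, `b = (cutE ρ).card`, `Q' = q p x D (θ ⊔ jn v h) (fe l f)`. `S_GQQ` with
`σ = full`: `Din p D full = D`, `D \ Din ρ = cutE ρ`, so
`(1 - 1/x)^b * Gs ρ (fe l f) full = x^(cs ρ - cs full) * q p x D (θ ⊔ wire R full) (fe l f)`. As `R` is contained in
the class of `h` in `full` (`Wh`) we have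
`θ ⊔ wire R full = θ ⊔ jn v h ⊔ (the joins of all the ends of the edges in cutE ρ with h)`. Order these at
most `2 b` vertices `r_1, ..., r_k`; let `U_i = U ∪ {v, r_1, ..., r_i}`,
`θ_i = θ ⊔ jn v h ⊔ jn r_1 h ⊔ ... ⊔ jn r_i h`. By `S_CFO` this is a configuration with the same `full` (if
`r_i ∈ U_(i-1)` then `r_i` and `h` are `θ_(i-1)`-related by `hub` and nothing changes), and `Rat` gives
`(1 - ε) q θ_(i+1) ≤ q θ_i`, `Pos` gives `0 ≤ q θ_i`. So `q θ_k ≤ (1 - ε)^(-2b) Q' ≤ (4/3)^(2b) Q' ≤ 2^b Q'`. Finally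
`(1 - 1/x)^(-b) ≤ 2^b`. -/
def S_GRW : Prop := ∀ (V E : Type) [Fintype V] [Fintype E] (p : E → V × V) (x : ℝ) (D : Finset E)
  (U : Finset V) (θ : Setoid V) (v h : V) (f : Setoid V → ℝ) (l : List (V × V)) (ε : ℝ), 2 ≤ x →
  0 ≤ ε → ε ≤ 1 / 4 → Cfg p D U θ → v ∉ U → h ∈ U → (gen p D ⊔ θ) v h →
  (∀ e ∈ l, e.1 ∈ U ∧ e.2 ∈ U) → Forest l (gen p D ⊔ θ) → Pos p x f Uᶜ.card →
  Rat p x f ε Uᶜ.card →
  ∀ ρ ∈ FL p D θ v h, Wh p D θ v ρ →
  Gs p x D θ v h ρ (fe l f) (gen p D ⊔ θ) ≤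
    x ^ (cs ρ - cs (gen p D ⊔ θ)) * 4 ^ (cutE p D ρ).card *
      q p x D (θ ⊔ jn v h) (fe l f)

/-- **[STP]** The step for the quotient estimate.

PROOF. Let `full = gen p D ⊔ θ`, `g = fe l f`, `Q' = q p x D (θ ⊔ jn v h) g ≥ 0` (`Pos`, `S_CFO`), `A` from `S_AEX`,
`b_ρ = (cutE ρ).card`, `m_ρ = cs ρ - cs full`. By `S_EXP`, `S_STR` (`Wh` if `A ρ ≠ 0`), `S_BND`, `S_CMP`
`|EE g| ≤ ∑_{ρ ∈ FL, A ρ ≠ 0} (1/x)^b_ρ * 64^b_ρ * Gs ρ g full`. The same bound holds for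
`EE (σ ↦ g (σ ⊔ jn v h))` by `S_GJN` (`ρ ≤ σ ⊔ jn v h ≤ full`). So by `S_DEL` and `S_GRW`
`|q θ g - Q'| ≤ (1 + 1/x) ∑ (256/x)^b_ρ x^m_ρ Q'`. By `S_EXN` `m_ρ + 1 ≤ b_ρ` and `b_ρ ≤ 14 (b_ρ - m_ρ)`. With
`W = (256/y)^14` (`256/y ≥ 1`): `256^b x^m / x^b = y^b (256/y)^b (1/x)^(b-m) ≤ y^b (W/x)^(b-m) ≤ y^b W/x`, as
`W ≤ x`. The sum over `ρ` is at most `W/x` by the hypothesis on `y`, and `1 + 1/x ≤ 2`. -/
def S_STP : Prop := ∀ y : ℝ, 0 < y → y ≤ 1 →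
  (∀ (V E : Type) [Fintype V] [Fintype E] (p : E → V × V) (x : ℝ) (D : Finset E) (U : Finset V)
    (θ : Setoid V) (v h : V) (A : Setoid V → (Setoid V → ℝ) →ₗ[ℝ] ℝ), 0 < x → Iso p →
    Cfg p D U θ → v ∉ U → h ∈ U → (gen p D ⊔ θ) v h → IsA p x D θ v h A →
    ∑ π ∈ (FL p D θ v h).filter (fun π => A π ≠ 0), y ^ (cutE p D π).card ≤ 1) →
  ∀ (V E : Type) [Fintype V] [Fintype E] (p : E → V × V) (x : ℝ) (D : Finset E)
  (U : Finset V) (θ : Setoid V) (v h : V) (f : Setoid V → ℝ) (l : List (V × V)),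
  8 * (256 / y) ^ 14 ≤ x → Iso p → Cfg p D U θ → v ∉ U → h ∈ U → (gen p D ⊔ θ) v h →
  (∀ e ∈ l, e.1 ∈ U ∧ e.2 ∈ U) → Forest l (gen p D ⊔ θ) → Pos p x f Uᶜ.card →
  Rat p x f (2 * (256 / y) ^ 14 / x) Uᶜ.card →
  |q p x D θ (fe l f) - q p x D (θ ⊔ jn v h) (fe l f)| ≤
    2 * (256 / y) ^ 14 / x * q p x D (θ ⊔ jn v h) (fe l f)

/-- **[THS]** Theorem S.

PROOF. `y` from `S_CNT`, `T = 8 (256/y)^14`, `ε = 2 (256/y)^14 / x ≤ 1/4`. Show `Pos p x f n` and `Rat p x f ε n` by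
induction on `n`. `Rat` at `n + 1`: for `Uᶜ.card < n` the induction hypothesis, for `Uᶜ.card = n` `S_STP`.
`Pos` at `n + 1`, `Uᶜ.card = n`: if `U = univ` then `S_QUU` and `CM f` (`Forest l θ`); the strict version too.
Otherwise take `v ∉ U`, `h ∈ U` with `full v h` (`Cfg.att`); by `Rat` (just proved at `Uᶜ.card = n`)
`q θ ≥ (1 - ε) q (θ ⊔ jn v h)`, and `q (θ ⊔ jn v h) ≥ 0` (`> 0` if `fe l f full > 0`) by `S_CFO` and the induction
hypothesis.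
Now let `a₀ : V`, `U = {a₀}`, `θ = ⊥`, `D = univ`, `l = []`: it is a configuration: every vertex is `gen p univ`-related
to `a₀`, because otherwise the class `P` of `a₀` has `bd P = ∅`, `P ≠ univ`, contradicting `Iso`. So
`gen p univ ⊔ ⊥ = ⊤`, and `fe [] f ⊤ = f ⊤ > 0`. -/
def S_THS : Prop := ∃ T : ℝ, 2 ≤ T ∧ ∀ (V E : Type) [Fintype V] [Fintype E] (p : E → V × V)
  (x : ℝ) (f : Setoid V → ℝ), T ≤ x → Nonempty V → Iso p → CM f → 0 < f ⊤ →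
  0 < q p x univ ⊥ f

end Pool.Agent.Lib.MP_4a8162_co.FB
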