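import Pool.Agent.Lib.MP_4a8162_co.FB.StmC

set_option autoImplicit false

/-!
# MP_4a8162_co, REAL FLOW ROOTS ARE BOUNDED: statements, part F (flow polynomials)

`PolD p x D θ = ∑_{B ⊆ D} (-1)^(D \ B).card x^B.card x^(cs (gen p B ⊔ θ))` is `x^(cs θ)` times the flow
polynomial of the graph with the edges `D` in which `θ`-related vertices are identified.
-/

namespace Pool.Agent.Lib.MP_4a8162_co.FB

open Finset
open scoped Classical

section defs

variable {V E : Type} [Fintype V] [Fintype E]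

/-- the edges inside `S` -/
noncomputable def ES (p : E → V × V) (S : Finset V) : Finset E :=
  univ.filter fun e => (p e).1 ∈ S ∧ (p e).2 ∈ S

/-- the graph induced on `S` -/
def pS (p : E → V × V) (S : Finset V) :
    {e : E // (p e).1 ∈ S ∧ (p e).2 ∈ S} → {a : V // a ∈ S} × {a : V // a ∈ S} :=
  fun e => (⟨(p e.1).1, e.2.1⟩, ⟨(p e.1).2, e.2.2⟩)

/-- a partition of `S` as a partition of `V` (with single vertices outside of `S`) -/
def lf (S : Finset V) (π : Setoid {a : V // a ∈ S}) : Setoid V where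
  r a b := a = b ∨ ∃ (ha : a ∈ S) (hb : b ∈ S), π ⟨a, ha⟩ ⟨b, hb⟩
  iseqv := by
    refine ⟨fun a => Or.inl rfl, ?_, ?_⟩
    · rintro a b (h | ⟨ha, hb, h⟩)
      · exact Or.inl h.symm
      · exact Or.inr ⟨hb, ha, π.symm h⟩
    · rintro a b c (rfl | ⟨ha, hb, h⟩) (rfl | ⟨hb', hc, h'⟩)
      · exact Or.inl rfl
      · exact Or.inr ⟨hb', hc, h'⟩
      · exact Or.inr ⟨ha, hb, h⟩
      · exact Or.inr ⟨ha, hc, π.trans h h'⟩

/-- the normalised polynomial of the part outside of `S`, as a function of the partition of `S` -/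
noncomputable def fS (p : E → V × V) (x : ℝ) (S : Finset V) (π : Setoid {a : V // a ∈ S}) : ℝ :=
  (1 / x) ^ cs π * PolD p x (ES p S)ᶜ (lf S π)

/-- `log (n + 8) ^ 2 / 2` -/
noncomputable def gg (n : ℕ) : ℝ := Real.log (n + 8) ^ 2 / 2

/-- positivity for all graphs of nullity less than `r` -/
def PW (x : ℝ) (r : ℕ) : Prop :=
  ∀ (V E : Type) [Fintype V] [Fintype E] (p : E → V × V) (D : Finset E) (θ : Setoid V),
    NlLt p D θ r → 0 ≤ PolD p x D θ ∧ (Brl p D θ → 0 < PolD p x D θ)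

end defs

/-- **[PDI]** Deletion and contraction.

PROOF. Split `B ⊆ insert e D` into `B ⊆ D` and `B = insert e B'`, `B' ⊆ D`: in the first case
`(insert e D \ B).card = (D \ B).card + 1`, in the second case `gen p B = gen p B' ⊔ jn (p e).1 (p e).2`
(`gen_insert`), `B.card = B'.card + 1`. -/
def S_PDI : Prop := ∀ (V E : Type) [Fintype V] [Fintype E] (p : E → V × V) (x : ℝ) (D : Finset E)
  (θ : Setoid V) (e : E), e ∉ D →
  PolD p x (insert e D) θ = x * PolD p x D (θ ⊔ jn (p e).1 (p e).2) - PolD p x D θ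

/-- **[BRZ]** The polynomial of a graph with a bridge is zero.

PROOF. `S_PDI` for `D.erase e` and `e`; for `B ⊆ D.erase e` the ends of `e` are not related by `gen p B ⊔ θ`, so
`cs (gen p B ⊔ θ ⊔ jn (p e).1 (p e).2) + 1 = cs (gen p B ⊔ θ)` (`cs_jn`) and
`x * PolD p x (D.erase e) (θ ⊔ jn ..) = PolD p x (D.erase e) θ` term by term. -/
def S_BRZ : Prop := ∀ (V E : Type) [Fintype V] [Fintype E] (p : E → V × V) (x : ℝ) (D : Finset E)
  (θ : Setoid V) (e : E), e ∈ D → ¬ (gen p (D.erase e) ⊔ θ) (p e).1 (p e).2 → PolD p x D θ = 0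

/-- **[QUO]** The quotient graph.

PROOF. `V' = Quotient θ`, `E' = {e // e ∈ D}`, `p' e = (class of (p e).1, class of (p e).2)`. For `B' : Finset E'`
with image `B ⊆ D`: `gen p' B'` relates the classes of `a` and `b` iff `gen p B ⊔ θ` relates `a` and `b` (both
directions: the pull back of `gen p' B'` is a setoid above `gen p B` and `θ`; the partition of
`V'` induced by `gen p B ⊔ θ ≥ θ` is above `gen p' B'`), so `cs (gen p' B') = cs (gen p B ⊔ θ)` (a bijection
of the quotients), and `B' ↦ B` is a bijection from `Finset E'` to the subsets of `D`, compatible with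
complements, cardinalities and `erase`. `cs ⊥ = card V' = cs θ`. -/
def S_QUO : Prop := ∀ (V E : Type) [Fintype V] [Fintype E] (p : E → V × V) (D : Finset E)
  (θ : Setoid V), ∃ (V' E' : Type) (_ : Fintype V') (_ : Fintype E') (p' : E' → V' × V'),
  Fintype.card V' = cs θ ∧ (∀ x : ℝ, PolD p x D θ = PolD p' x univ ⊥) ∧
  (∀ r, NlLt p D θ r ↔ NlLt p' univ ⊥ r) ∧ (Brl p D θ ↔ Brl p' univ ⊥)

/-- **[CIR]** Graphs with a short circuit.

PROOF. Let `n = card V`. Let `C ⊆ A` be minimal with `cs (gen p C) + C.card > n` (it exists: for every `B`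
`cs (gen p B) + B.card ≥ n`, by induction with `gen_insert` and `cs_le_jn`). So `C` is nonempty,
`k = C.card < x`, every proper subset `B` of `C` is independent: `cs (gen p B) + B.card = n`. For `e ∈ C`:
`cs (gen p C) = cs (gen p (C.erase e))`, so the ends of `e` are related by `gen p (C.erase e)` and
`gen p (C.erase e) = gen p C`; `cs (gen p C) = n + 1 - k`. Let `R = univ \ C`, and
`N(K, B) = PolD p x (R ∪ K) (gen p B) / x ^ cs (gen p B)` for disjoint `K, B ⊆ C`. By `S_PDI` and `cs_jn`, for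
`e ∈ K` whose ends are not related by `gen p B`:
`N(K, B) = N(K.erase e, insert e B) - N(K.erase e, B)`, and `N(K, B) = (x - 1) N(K.erase e, B)` if they are
related by `gen p B`.
(1) If `K ∪ B = C.erase e` then `N(K, B) ≤ N(∅, C)`: induction on `K.card`. `K = ∅`: `gen p (C.erase e) = gen p C`.
Otherwise take `e' ∈ K`: its ends are not related by `gen p B` (`insert e' B` is independent), and
`N(K.erase e', B) ≥ 0` by `PW x r`: the nullity condition is
`(R ∪ K.erase e').card + cs (gen p (R ∪ K.erase e') ⊔ gen p B) < r + cs (gen p B)`, i.e.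
`R.card + K.card - 1 + cs (gen p (univ \ {e, e'})) < r + n - B.card`, and `K.card + B.card = k - 1`,
`cs (gen p (univ \ {e, e'})) ≤ cs (gen p univ) + 1` (the ends of `e` are related without `e`), and
`R.card + k + cs (gen p univ) < r + 1 + n`. So `N(K, B) ≤ N(K.erase e', insert e' B) ≤ N(∅, C)`.
(2) For nonempty `K ⊆ C`, `B = C \ K`: `N(K, B) ≥ (x - K.card) N(∅, C)`: induction. `K = {e}`: the ends of `e` are
related by `gen p B = gen p C`: `N(K, B) = (x - 1) N(∅, C)`. Otherwise, for `e ∈ K`,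
`N(K, B) = N(K.erase e, insert e B) - N(K.erase e, B) ≥ (x - (K.card - 1)) N(∅, C) - N(∅, C)` by induction and
(1).
With `K = C`: `PolD p x univ ⊥ / x ^ n ≥ (x - k) N(∅, C)`, and `N(∅, C) > 0` by `PW x r`:
`R.card + cs (gen p univ) < r + n + 1 - k`; `Brl p R (gen p C)` because
`gen p (R.erase e) ⊔ gen p C = gen p (univ.erase e)`. -/
def S_CIR : Prop := ∀ (x : ℝ) (r : ℕ), 1 < x → PW x r → ∀ (V E : Type) [Fintype V] [Fintype E]
  (p : E → V × V), NlLt p univ ⊥ (r + 1) → Brl p univ ⊥ → ∀ A : Finset E, (A.card : ℝ) < x →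
  cs (gen p A) + A.card ≠ Fintype.card V → 0 < PolD p x univ ⊥

/-- **[RED]** Reductions.

PROOF. `V` empty: `E` is empty, the polynomial is `1`. Suppose `u, w` are not related by `gen p univ`. Let
`θ = jn u w`, `cs θ = n - 1`. For every `B`: `cs (gen p B ⊔ θ) + 1 = cs (gen p B)`. So
`x * PolD p x univ θ = PolD p x univ ⊥`, `NlLt p univ θ (r + 1)`, `Brl p univ θ`, and the second hypothesis
applies. Now let `gen p univ = ⊤`. If some `A` with `A.card < x` has `cs (gen p A) + A.card ≠ n` use `S_CIR`.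
If `card V = 1`: if there is an edge `e` then `A = {e}` is such a set (`1 < x`; `cs = 1`), otherwise `E` is
empty and the polynomial is `x`. Now let `card V ≥ 2`, `v : V`. `bd {v}` is nonempty (otherwise `{v}` is closed
and `v` is not related to the other vertices), and if `bd {v} = {e}` then `e` is a bridge (`{v}` is closed
for `univ.erase e`), a contradiction. Suppose `bd {v} = {e, f}`, `e ≠ f`. By `S_PDI`
`PolD p x univ ⊥ = x * PolD p x (univ.erase e) (jn (p e).1 (p e).2) - PolD p x (univ.erase e) ⊥`, the last term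
is `0` by `S_BRZ` with the edge `f` (`{v}` is closed for `univ.erase e` without `f`), and the first one is
positive by the second hypothesis: `cs (jn ..) = n - 1` (`e` is not a loop),
`gen p (univ.erase e) ⊔ jn .. = gen p univ`, `Brl`: `gen p ((univ.erase e).erase e') ⊔ jn .. = gen p (univ.erase e')`.
-/
def S_RED : Prop := ∀ (x : ℝ) (r n : ℕ), 1 < x → PW x r →
  (∀ (V E : Type) [Fintype V] [Fintype E] (p : E → V × V) (D : Finset E) (θ : Setoid V),
    NlLt p D θ (r + 1) → cs θ < n → Brl p D θ → 0 < PolD p x D θ) →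
  ∀ (V E : Type) [Fintype V] [Fintype E] (p : E → V × V), Fintype.card V = n →
  NlLt p univ ⊥ (r + 1) → Brl p univ ⊥ →
  0 < PolD p x univ ⊥ ∨ (Nonempty V ∧ gen p univ = ⊤ ∧ (∀ v, 3 ≤ (bd p {v}).card) ∧
    ∀ A : Finset E, (A.card : ℝ) < x → cs (gen p A) + A.card = Fintype.card V)

/-- **[DGS]** The sum of the degrees.

PROOF. Count the pairs (vertex of `P`, edge which leaves it): an edge with both ends in `P` gives at most `2`
of them, an edge in `bd p P` at most one, other edges none. -/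
def S_DGS : Prop := ∀ (V E : Type) [Fintype V] [Fintype E] (p : E → V × V) (P : Finset V),
  ∑ v ∈ P, (bd p {v}).card ≤ 2 * (ES p P).card + (bd p P).card

/-- **[SBM]** The boundaries in an induced graph.

PROOF. Sort the edges by the positions of their ends in `P`, `S \ P`, `Sᶜ`: with `a` edges between `P` and
`S \ P`, `b` between `P` and `Sᶜ`, `c` between `S \ P` and `Sᶜ`: `2 a + (b + c) = (a + b) + (a + c)`. -/
def S_SBM : Prop := ∀ (V E : Type) [Fintype V] [Fintype E] (p : E → V × V) (S : Finset V)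
  (P : Finset {a : V // a ∈ S}),
  2 * (bd (pS p S) P).card + (bd p S).card =
    (bd p (P.map (Function.Embedding.subtype _))).card +
      (bd p (S \ P.map (Function.Embedding.subtype _))).card

/-- **[TRE]** Small sets have large boundaries.

PROOF. Let `F = ES p P`. Suppose `cs (gen p F) + F.card ≠ card V`, so it is larger; let `C ⊆ F` be minimal with
`cs (gen p C) + C.card > card V`. Then `cs (gen p C) + C.card = card V + 1` (remove one edge: `cs` grows by at
most one). The vertices outside `P` are single classes of `gen p C` and `P` contains at least one class, so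
`cs (gen p C) ≥ card V - P.card + 1` and `C.card ≤ P.card < x`, contradicting the hypothesis. So
`F.card = card V - cs (gen p F) ≤ P.card - 1`. By `S_DGS` `3 P.card ≤ 2 F.card + (bd p P).card`. -/
def S_TRE : Prop := ∀ (V E : Type) [Fintype V] [Fintype E] (p : E → V × V) (x : ℝ),
  (∀ v, 3 ≤ (bd p {v}).card) →
  (∀ A : Finset E, (A.card : ℝ) < x → cs (gen p A) + A.card = Fintype.card V) →
  ∀ P : Finset V, P.Nonempty → (P.card : ℝ) < x → P.card + 2 ≤ (bd p P).card

/-- **[GAN]** Properties of `g n = log (n + 8) ^ 2 / 2`.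

PROOF. `g` is concave on `[0, ∞)`: the derivative `log (t + 8) / (t + 8)` decreases (`log (t + 8) ≥ 1`).
(1), (2), (6): `log (n + 8) ^ 2 / 2 - n` decreases in `n` (the derivative of `g` is at most `log 8 / 8 < 1`), so check
the first value: `log 9 ^ 2 / 2 ≤ 3`, `log 11 ^ 2 / 2 ≤ 3`; (6): `2 psi n = (2/3) g n ≤ (2/3) (n + 2) ≤ n + 3/2`.
(3) by concavity `g p + g (s - p) ≥ g 1 + g (s - 1)` and `g s - g (s - 1) ≤ log 9 / 9 < 0.25`,
`g 1 = log 9 ^ 2 / 2 > 2.4`. (4) `g s - g (s - p) ≤ p * log (s - p + 8) / (s - p + 8) ≤ p * log (p + 8) / (p + 8) ≤ L`,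
`L = log (p + 8)`, since `s - p ≥ p`; and `L ≥ log 409 ≥ 6` (`exp 6 < 404`), so
`g p - L = L^2/2 - L ≥ L^2/3 = 2 psi p` and `L^2/2 - L ≥ 12 > 4`.
(5) `g s - g (s - p) ≤ p * log y / y` with `y = s - p + 8 ≥ 999608`, and `log y ≤ 4 y^(1/4)`:
`400 * 4 / 999608^(3/4) ≤ 0.06 ≤ 1/2`. -/
def S_GAN : Prop := (∀ n : ℕ, 1 ≤ n → gg n ≤ n + 2) ∧ (∀ n : ℕ, 3 ≤ n → gg n ≤ n) ∧
  (∀ p s : ℕ, 1 ≤ p → 2 * p ≤ s → gg s + 2 < gg p + gg (s - p)) ∧
  (∀ p s : ℕ, 401 ≤ p → 2 * p ≤ s →
    gg s + 4 < gg p + gg (s - p) ∧ gg s + 2 * psi p ≤ gg p + gg (s - p)) ∧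
  (∀ p s : ℕ, p ≤ 400 → 1000000 ≤ s → gg s ≤ gg (s - p) + 1 / 2) ∧
  (∀ n : ℕ, 1 ≤ n → 2 * psi n ≤ n + 3 / 2)

/-- **[ISO]** The set `S`.

PROOF. Let `F = {P nonempty, 2 P.card ≤ card V, (bd p P).card < gg P.card} ∪ {univ}`, `S` a member of `F` with
the smallest number `s` of elements. (a) `x ≤ s`: a nonempty `P` with `P.card < x` has
`(bd p P).card ≥ P.card + 2 ≥ gg P.card` (`S_TRE`, `S_GAN` (1)); for `P = univ` this contradicts `bd p univ = ∅`. So
`s ≥ 1000000`. (b) `s ≤ (ES p S).card`: `3 s ≤ 2 (ES p S).card + (bd p S).card` (`S_DGS`) and `(bd p S).card ≤ s`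
(`S_GAN` (2), or `bd p univ = ∅`). (c) `Iso (pS p S)`. For `P' : Finset S` let `P` be its image, `k = P.card`,
`d = (bd (pS p S) P').card`; the complement of `P'` has the same boundary.
Case `S = univ`: `d = (bd p P).card` (`S_SBM`). `d ≥ 2` for `P ≠ ∅, univ`: `bd p P ≠ ∅` as `gen p univ = ⊤`, and
`bd p P = {e}` would make `e` a bridge. If `P ≠ ∅`, `2 k ≤ s`, then `P ∉ F` (`k < s`), so
`d ≥ gg k ≥ psi k`. If `d = 2`, `2 k ≤ s`, `P ≠ ∅`: then `k ≤ 400` would imply `d ≥ k + 2` (`S_TRE`), so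
`k ≥ 401` and `2 ≥ gg k ≥ 3 psi k`, a contradiction to `gg k ≥ 18` (`log 409 ≥ 6`). If `2 k > s` apply this to
the complement.
Case `S ≠ univ`: `2 s ≤ card V`, `(bd p S).card < gg s`. For `P ≠ ∅, S`: `P, S \ P ∉ F`, so
`(bd p P).card ≥ gg k`, `(bd p (S \ P)).card ≥ gg (s - k)`, and `S_SBM` gives
`2 d ≥ (bd p P).card + gg (s - k) - gg s ≥ gg k + gg (s - k) - gg s`. Let `2 k ≤ s` (otherwise take the
complement). `S_GAN` (3): `2 d > 2`, `d ≥ 2`. Second property: if `k ≥ 401` then `S_GAN` (4). If `k ≤ 400`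
then `(bd p P).card ≥ k + 2` (`S_TRE`) and `S_GAN` (5), (6): `2 d ≥ k + 2 - 1/2 ≥ 2 psi k`. Third property:
`d = 2`: `k ≥ 401` is impossible by `S_GAN` (4) (`4 = 2 d > 4`), and if `k ≤ 400` then `4 ≥ k + 2 - 1/2`, so
`k ≤ 2`. -/
def S_ISO : Prop := ∀ (V E : Type) [Fintype V] [Fintype E] (p : E → V × V) (x : ℝ),
  1000000 ≤ x → Nonempty V → gen p univ = ⊤ → Brl p univ ⊥ → (∀ v, 3 ≤ (bd p {v}).card) →
  (∀ A : Finset E, (A.card : ℝ) < x → cs (gen p A) + A.card = Fintype.card V) →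
  ∃ S : Finset V, S.Nonempty ∧ S.card ≤ (ES p S).card ∧ Iso (pS p S)

/-- **[CON]** The expansion of the edges inside `S`.

PROOF. A subset `B` of `univ` is `B1 ∪ B2`, `B1 ⊆ ES p S`, `B2 ⊆ (ES p S)ᶜ`, and
`gen p B ⊔ ⊥ = gen p B2 ⊔ gen p B1`; `gen p B1 = lf S (gen (pS p S) B1')` for the set `B1'` of edges of `pS p S`
corresponding to `B1`. So `PolD p x univ ⊥ = ∑_{B1'} (-1)^(B1'ᶜ).card x^B1'.card PolD p x (ES p S)ᶜ (lf S (gen (pS p S) B1'))`.
In `q` the sum is over the complement `B` of `B1'`: `(-(1/x))^B.card x^(cs) * (1/x)^(cs) = (-(1/x))^B.card` and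
`x^(ES p S).card (-(1/x))^B.card = (-1)^B.card x^(Bᶜ).card`. -/
def S_CON : Prop := ∀ (V E : Type) [Fintype V] [Fintype E] (p : E → V × V) (x : ℝ), 0 < x →
  ∀ S : Finset V, PolD p x univ ⊥ = x ^ (ES p S).card * q (pS p S) x univ ⊥ (fS p x S)

/-- **[FAD]** Flow edges.

PROOF. Let `F_(p,D) σ = (1/x)^(cs σ) * PolD p x D σ`. Induction on `l`, for all `V, E, p, D, θ`. `l = []`: `PW`. Let
`l = (a, b) :: l₀`. `Forest l θ` implies that `a, b` are not related by `θ ⊔ gl l₀`
(`cs (θ ⊔ gl l₀ ⊔ jn a b) + l₀.length + 1 = cs θ ≤ cs (θ ⊔ gl l₀) + l₀.length`), in particular not by `θ`, and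
`Forest l₀ θ`. Let `p' : Option E → V × V` with `p' none = (a, b)`, `p' (some e) = p e`,
`D' = insert none (D.map some)`. By `S_PDI` (and `PolD p' x (D.map some) σ = PolD p x D σ`) and `cs_jn`:
`F_(p',D') σ = F_(p,D) (σ ⊔ jn a b) - F_(p,D) σ` if `¬ σ a b`. By induction on the list: if
`F' τ = F (τ ⊔ jn a b) - F τ` for all `τ` with `θ ≤ τ ≤ θ ⊔ gl l₀` then
`fe l₀ F' θ = fe l₀ F (θ ⊔ jn a b) - fe l₀ F θ = fe ((a, b) :: l₀) F θ`. So the claim for `l` is the claim for
`p', D', l₀, θ`: `D'.card = D.card + 1`, `gen p' D' = gen p D ⊔ jn a b`. -/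
def S_FAD : Prop := ∀ (x : ℝ) (r : ℕ), 0 < x → PW x r → ∀ (V E : Type) [Fintype V] [Fintype E]
  (p : E → V × V) (D : Finset E) (θ : Setoid V) (l : List (V × V)), Forest l θ →
  D.card + l.length + cs (gen p D ⊔ θ ⊔ gl l) < r + cs θ →
  0 ≤ fe l (fun σ => (1 / x) ^ cs σ * PolD p x D σ) θ

/-- **[CMS]** The function of `S`.

PROOF. Let `R = (ES p S)ᶜ`, `n = card V`, `s = S.card`, `F σ = (1/x)^(cs σ) * PolD p x R σ`. `cs (lf S π) = cs π + n - s`, so
`fS p x S π = x^(n - s) * F (lf S π)`. With `L = l.map (fun e => (e.1.1, e.2.1))` we have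
`lf S (π ⊔ jn a b) = lf S π ⊔ jn a.1 b.1`, so by induction on `l`
`fe l (fS p x S) π = x^(n - s) * fe L F (lf S π)`, and `Forest L (lf S π)` since
`lf S π ⊔ gl L = lf S (π ⊔ gl l)`. Use `S_FAD`: the nullity condition is
`R.card + l.length + cs (gen p R ⊔ lf S π ⊔ gl L) < r + cs π + n - s`. Here
`cs (gen p R ⊔ lf S π ⊔ gl L) ≤ cs (π ⊔ gl l) = cs π - l.length`: every class of
`gen p R ⊔ lf S π ⊔ gl L` contains a vertex of `S` (a class without a vertex of `S` is closed under all edges, since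
the edges of `ES p S` have their ends in `S`; but `gen p univ = ⊤` and `S` is nonempty). And
`R.card = card E - (ES p S).card ≤ card E - s`, `card E + 1 < r + 1 + n` (`NlLt`, `cs ⊤ = 1`). So
`R.card + cs π ≤ card E - s + cs π < r + n - s + cs π`.
`0 < fS p x S ⊤`: `PW x r` for `R` and `lf S ⊤`: the same computation for the nullity (`π = ⊤`, `l = []`), and
`Brl p R (lf S ⊤)`: for `e ∈ R`: `gen p (univ.erase e) ≤ gen p (R.erase e) ⊔ lf S ⊤`. -/
def S_CMS : Prop := ∀ (x : ℝ) (r : ℕ), 1 < x → PW x r → ∀ (V E : Type) [Fintype V] [Fintype E]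
  (p : E → V × V) (S : Finset V), S.Nonempty → gen p univ = ⊤ → NlLt p univ ⊥ (r + 1) →
  Brl p univ ⊥ → S.card ≤ (ES p S).card → CM (fS p x S) ∧ 0 < fS p x S ⊤

/-- **[MNF]** Positivity of all flow polynomials.

PROOF. `T = max` of the number of `S_THS` and `1000000`. Let `x ≥ T`. Induction on `r`. `PW x 0`: vacuous, since
`cs θ ≤ cs (gen p D ⊔ θ) + D.card` always. Let `PW x r`. By induction on `n` we show: if `NlLt p D θ (r + 1)`,
`cs θ < n`, `Brl p D θ` then `0 < PolD p x D θ`. In the step `cs θ = n`: by `S_QUO` we may assume `θ = ⊥`, `D = univ`,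
`card V = n`. `S_RED`: either we are done or the structure is as in `S_ISO`; take `S`. By `S_CMS` and `S_THS` (for
`pS p S`, `fS p x S`; the vertex type is nonempty) `q (pS p S) x univ ⊥ (fS p x S) > 0`, and `S_CON`.
`PW x (r + 1)`: if `Brl p D θ` then this; otherwise `PolD = 0` by `S_BRZ`. -/
def S_MNF : Prop := ∃ T : ℝ, ∀ x : ℝ, T ≤ x → ∀ r : ℕ, PW x r

end Pool.Agent.Lib.MP_4a8162_co.FB
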